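import Mathlib

set_option autoImplicit false

/-! # Groups attached to bilinear maps -/

namespace Pool.Agent.R691.Mip

open Matrix

/-- The bilinear map with matrices `B l`. -/
def bil {R : Type*} [CommRing R] {n m : ℕ} (B : Fin m → Matrix (Fin n) (Fin n) R)
    (v w : Fin n → R) : Fin m → R := fun l => v ⬝ᵥ (B l *ᵥ w)

section bil
variable {R : Type*} [CommRing R] {n m : ℕ} (B : Fin m → Matrix (Fin n) (Fin n) R)

lemma bil_add_left (v v' w : Fin n → R) : bil B (v + v') w = bil B v w + bil B v' w := by
  funext l; simp [bil, add_dotProduct]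

lemma bil_add_right (v w w' : Fin n → R) : bil B v (w + w') = bil B v w + bil B v w' := by
  funext l; simp [bil, mulVec_add, dotProduct_add]

lemma bil_smul_left (c : R) (v w : Fin n → R) : bil B (c • v) w = c • bil B v w := by
  funext l; simp [bil, smul_dotProduct]

lemma bil_smul_right (c : R) (v w : Fin n → R) : bil B v (c • w) = c • bil B v w := by
  funext l; simp [bil, mulVec_smul, dotProduct_smul]

@[simp] lemma bil_zero_left (w : Fin n → R) : bil B 0 w = 0 := by
  funext l; simp [bil]

@[simp] lemma bil_zero_right (w : Fin n → R) : bil B w 0 = 0 := by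
  funext l; simp [bil]

lemma bil_neg_left (v w : Fin n → R) : bil B (-v) w = - bil B v w := by
  funext l; simp [bil]

lemma bil_neg_right (v w : Fin n → R) : bil B v (-w) = - bil B v w := by
  funext l; simp [bil, mulVec_neg]

lemma bil_sum_left {ι : Type*} (s : Finset ι) (f : ι → Fin n → R) (w : Fin n → R) :
    bil B (∑ i ∈ s, f i) w = ∑ i ∈ s, bil B (f i) w := by
  classical
  induction s using Finset.induction_on with
  | empty => simp
  | insert a s ha ih => rw [Finset.sum_insert ha, Finset.sum_insert ha, bil_add_left, ih]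

lemma bil_sum_right {ι : Type*} (s : Finset ι) (f : ι → Fin n → R) (w : Fin n → R) :
    bil B w (∑ i ∈ s, f i) = ∑ i ∈ s, bil B w (f i) := by
  classical
  induction s using Finset.induction_on with
  | empty => simp
  | insert a s ha ih => rw [Finset.sum_insert ha, Finset.sum_insert ha, bil_add_right, ih]

end bil

/-- The group `R^n × R^m` with the multiplication `(v,t)(v',t') = (v+v', t+t'+B(v,v'))`. -/
@[ext] structure Heis {R : Type*} [CommRing R] {n m : ℕ}
    (B : Fin m → Matrix (Fin n) (Fin n) R) where
  /-- first component -/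
  v : Fin n → R
  /-- second component -/
  t : Fin m → R

namespace Heis
variable {R : Type*} [CommRing R] {n m : ℕ} {B : Fin m → Matrix (Fin n) (Fin n) R}

instance : Mul (Heis B) := ⟨fun a b => ⟨a.v + b.v, a.t + b.t + bil B a.v b.v⟩⟩
instance : One (Heis B) := ⟨⟨0, 0⟩⟩
instance : Inv (Heis B) := ⟨fun a => ⟨-a.v, -a.t + bil B a.v a.v⟩⟩

@[simp] lemma mul_v (a b : Heis B) : (a * b).v = a.v + b.v := rfl
@[simp] lemma mul_t (a b : Heis B) : (a * b).t = a.t + b.t + bil B a.v b.v := rfl
@[simp] lemma one_v : (1 : Heis B).v = 0 := rfl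
@[simp] lemma one_t : (1 : Heis B).t = 0 := rfl
@[simp] lemma inv_v (a : Heis B) : (a⁻¹).v = -a.v := rfl
@[simp] lemma inv_t (a : Heis B) : (a⁻¹).t = -a.t + bil B a.v a.v := rfl

instance : Group (Heis B) := Group.ofLeftAxioms
  (by
    intro a b c
    ext1
    · simp [add_assoc]
    · simp [bil_add_left, bil_add_right]; abel)
  (by intro a; ext1 <;> simp)
  (by
    intro a
    ext1
    · simp
    · simp [bil_neg_left])

instance [Finite R] : Finite (Heis B) :=
  Finite.of_injective (fun a : Heis B => (a.v, a.t)) (by
    intro a b h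
    simp only [Prod.mk.injEq] at h
    exact Heis.ext h.1 h.2)

/-- As a set the group is a product. -/
def equivProd : Heis B ≃ (Fin n → R) × (Fin m → R) where
  toFun a := (a.v, a.t)
  invFun a := ⟨a.1, a.2⟩
  left_inv _ := rfl
  right_inv _ := rfl

end Heis

end Pool.Agent.R691.Mip
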