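import Mathlib
import Pool.Agent.R691.Mip.Heis

set_option autoImplicit false
set_option linter.unusedSectionVars false

/-! # Groups of class two and odd prime exponent -/

namespace Pool.Agent.R691.Mip

open Matrix
open scoped commutatorElement

/-- class at most two, exponent `p = 2 j + 1` -/
structure BData (G : Type*) [Group G] (p : ℕ) where
  /-- half -/
  j : ℕ
  hj : 2 * j + 1 = p
  hcen : ∀ x y z : G, ⁅x, y⁆ * z = z * ⁅x, y⁆
  hexp : ∀ x : G, x ^ p = 1

section comm
variable {G : Type*} [Group G] (hcen : ∀ x y z : G, ⁅x, y⁆ * z = z * ⁅x, y⁆)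
include hcen

lemma cmul_left (x y z : G) : ⁅x * y, z⁆ = ⁅x, z⁆ * ⁅y, z⁆ := by
  have h : ⁅x * y, z⁆ = x * (⁅y, z⁆ * (z * x⁻¹ * z⁻¹)) := by
    simp only [commutatorElement_def]; group
  rw [h, ← mul_assoc, ← hcen y z x, mul_assoc, hcen y z (x * (z * x⁻¹ * z⁻¹))]
  simp only [commutatorElement_def]; group

lemma cmul_right (x y z : G) : ⁅x, y * z⁆ = ⁅x, y⁆ * ⁅x, z⁆ := by
  have h : ⁅x, y * z⁆ = x * y * x⁻¹ * (⁅x, z⁆ * y⁻¹) := by
    simp only [commutatorElement_def]; group
  rw [h, hcen x z y⁻¹, commutatorElement_def x y]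
  group

lemma cc_one (x y z : G) : ⁅⁅x, y⁆, z⁆ = 1 := by
  rw [commutatorElement_eq_one_iff_mul_comm]
  exact hcen x y z

lemma ccp_one (x y z : G) (k : ℕ) : ⁅⁅x, y⁆ ^ k, z⁆ = 1 := by
  induction k with
  | zero => simp
  | succ k ih => rw [pow_succ, cmul_left hcen, ih, cc_one hcen, one_mul]

lemma ccp_one' (x y z : G) (k : ℕ) : ⁅z, ⁅x, y⁆ ^ k⁆ = 1 := by
  rw [← commutatorElement_inv, ccp_one hcen, inv_one]

lemma cpow_comm (x y z : G) (k : ℕ) : ⁅x, y⁆ ^ k * z = z * ⁅x, y⁆ ^ k :=
  commutatorElement_eq_one_iff_mul_comm.1 (ccp_one hcen x y z k)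

end comm

/-- The additive group attached to `G`. -/
def XX {G : Type*} [Group G] {p : ℕ} (_D : BData G p) : Type _ := G

section XX
variable {G : Type*} [Group G] {p : ℕ} (D : BData G p)

/-- to the additive group -/
def toX (x : G) : XX D := x
/-- from the additive group -/
def ofX (x : XX D) : G := x

variable {D}

instance : Add (XX D) := ⟨fun x y => toX D (ofX D x * ofX D y * ⁅ofX D x, ofX D y⁆ ^ D.j)⟩
instance : Zero (XX D) := ⟨toX D 1⟩
instance : Neg (XX D) := ⟨fun x => toX D (ofX D x)⁻¹⟩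

lemma add_def (x y : G) : toX D x + toX D y = toX D (x * y * ⁅x, y⁆ ^ D.j) := rfl
lemma zero_def : (0 : XX D) = toX D 1 := rfl
lemma neg_def (x : G) : - toX D x = toX D x⁻¹ := rfl

lemma cpow_p (D : BData G p) (x : G) : x ^ (D.j + D.j + 1) = 1 := by
  have := D.hexp x
  rw [← D.hj] at this
  rw [← this]
  congr 1
  ring

instance : AddCommGroup (XX D) where
  add_assoc x y z := by
    change toX D (ofX D (toX D (ofX D x * ofX D y * ⁅ofX D x, ofX D y⁆ ^ D.j)) * ofX D z *
      ⁅ofX D (toX D (ofX D x * ofX D y * ⁅ofX D x, ofX D y⁆ ^ D.j)), ofX D z⁆ ^ D.j) =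
      toX D (ofX D x * ofX D (toX D (ofX D y * ofX D z * ⁅ofX D y, ofX D z⁆ ^ D.j)) *
      ⁅ofX D x, ofX D (toX D (ofX D y * ofX D z * ⁅ofX D y, ofX D z⁆ ^ D.j))⁆ ^ D.j)
    generalize ofX D x = a
    generalize ofX D y = b
    generalize ofX D z = c
    change toX D (a * b * ⁅a, b⁆ ^ D.j * c * ⁅a * b * ⁅a, b⁆ ^ D.j, c⁆ ^ D.j) =
      toX D (a * (b * c * ⁅b, c⁆ ^ D.j) * ⁅a, b * c * ⁅b, c⁆ ^ D.j⁆ ^ D.j)
    congr 1
    rw [cmul_left D.hcen, cmul_left D.hcen, ccp_one D.hcen, mul_one, cmul_right D.hcen,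
      cmul_right D.hcen, ccp_one' D.hcen, mul_one]
    have h1 : (⁅a, c⁆ * ⁅b, c⁆) ^ D.j = ⁅a, c⁆ ^ D.j * ⁅b, c⁆ ^ D.j :=
      Commute.mul_pow (D.hcen a c ⁅b, c⁆) _
    have h2 : (⁅a, b⁆ * ⁅a, c⁆) ^ D.j = ⁅a, b⁆ ^ D.j * ⁅a, c⁆ ^ D.j :=
      Commute.mul_pow (D.hcen a b ⁅a, c⁆) _
    rw [h1, h2]
    have h3 : a * b * ⁅a, b⁆ ^ D.j * c * (⁅a, c⁆ ^ D.j * ⁅b, c⁆ ^ D.j) =
        a * b * (⁅a, b⁆ ^ D.j * (c * (⁅a, c⁆ ^ D.j * ⁅b, c⁆ ^ D.j))) := by group
    rw [h3, cpow_comm D.hcen a b]
    have h4 : a * b * (c * (⁅a, c⁆ ^ D.j * ⁅b, c⁆ ^ D.j) * ⁅a, b⁆ ^ D.j) =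
        a * b * c * ((⁅a, c⁆ ^ D.j * ⁅b, c⁆ ^ D.j) * ⁅a, b⁆ ^ D.j) := by group
    have h5 : a * (b * c * ⁅b, c⁆ ^ D.j) * (⁅a, b⁆ ^ D.j * ⁅a, c⁆ ^ D.j) =
        a * b * c * (⁅b, c⁆ ^ D.j * (⁅a, b⁆ ^ D.j * ⁅a, c⁆ ^ D.j)) := by group
    rw [h4, h5]
    congr 1
    rw [cpow_comm D.hcen b c, cpow_comm D.hcen a b, mul_assoc, cpow_comm D.hcen b c,
      ← mul_assoc, mul_assoc, cpow_comm D.hcen a b]
  zero_add x := by
    change toX D (1 * ofX D x * ⁅1, ofX D x⁆ ^ D.j) = x
    simp
    rfl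
  add_zero x := by
    change toX D (ofX D x * 1 * ⁅ofX D x, 1⁆ ^ D.j) = x
    simp
    rfl
  nsmul := nsmulRec
  zsmul := zsmulRec
  neg_add_cancel x := by
    change toX D ((ofX D x)⁻¹ * ofX D x * ⁅(ofX D x)⁻¹, ofX D x⁆ ^ D.j) = toX D 1
    have h : ⁅(ofX D x)⁻¹, ofX D x⁆ = 1 := by
      rw [commutatorElement_eq_one_iff_mul_comm]; group
    rw [h, one_pow, mul_one, inv_mul_cancel]
  add_comm x y := by
    change toX D (ofX D x * ofX D y * ⁅ofX D x, ofX D y⁆ ^ D.j) =
      toX D (ofX D y * ofX D x * ⁅ofX D y, ofX D x⁆ ^ D.j)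
    generalize ofX D x = a
    generalize ofX D y = b
    congr 1
    have h1 : a * b = ⁅a, b⁆ * (b * a) := by
      rw [commutatorElement_def]; group
    have h2 : ⁅b, a⁆ = ⁅a, b⁆⁻¹ := (commutatorElement_inv a b).symm
    rw [h2, h1, D.hcen a b (b * a), mul_assoc, ← pow_succ', inv_pow]
    congr 1
    rw [eq_inv_iff_mul_eq_one, ← pow_add]
    have := cpow_p D ⁅a, b⁆
    rwa [add_right_comm] at this

lemma ofX_add (x y : XX D) : ofX D (x + y) = ofX D x * ofX D y * ⁅ofX D x, ofX D y⁆ ^ D.j := rfl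
lemma ofX_zero : ofX D 0 = 1 := rfl
lemma ofX_neg (x : XX D) : ofX D (-x) = (ofX D x)⁻¹ := rfl

lemma ofX_nsmul (x : XX D) (k : ℕ) : ofX D (k • x) = (ofX D x) ^ k := by
  induction k with
  | zero => rw [zero_smul, ofX_zero, pow_zero]
  | succ k ih =>
    rw [succ_nsmul, ofX_add, ih]
    have h : ⁅ofX D x ^ k, ofX D x⁆ = 1 := by
      rw [commutatorElement_eq_one_iff_mul_comm]; exact (Commute.refl _).pow_left _
    rw [h, one_pow, mul_one, pow_succ]

instance : Module (ZMod p) (XX D) := AddCommGroup.zmodModule (n := p) (by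
  intro x
  have h := ofX_nsmul x p
  rw [D.hexp] at h
  exact h)

/-- the commutator, in the additive group -/
def cm (x y : XX D) : XX D := toX D ⁅ofX D x, ofX D y⁆

lemma add_central (x z : XX D) (h : ∀ g : G, ofX D z * g = g * ofX D z) :
    ofX D (x + z) = ofX D x * ofX D z := by
  have h1 : ⁅ofX D x, ofX D z⁆ = 1 := by
    rw [commutatorElement_eq_one_iff_mul_comm]; exact (h _).symm
  rw [ofX_add, h1, one_pow, mul_one]

lemma cm_add_left (x y z : XX D) : cm (x + y) z = cm x z + cm y z := by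
  have h : ofX D (cm (x + y) z) = ofX D (cm x z + cm y z) := by
    rw [add_central (cm x z) (cm y z) (fun g => D.hcen _ _ g)]
    change ⁅ofX D (x + y), ofX D z⁆ = ⁅ofX D x, ofX D z⁆ * ⁅ofX D y, ofX D z⁆
    rw [ofX_add, cmul_left D.hcen, cmul_left D.hcen, ccp_one D.hcen, mul_one]
  exact h

lemma cm_add_right (x y z : XX D) : cm x (y + z) = cm x y + cm x z := by
  have h : ofX D (cm x (y + z)) = ofX D (cm x y + cm x z) := by
    rw [add_central (cm x y) (cm x z) (fun g => D.hcen _ _ g)]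
    change ⁅ofX D x, ofX D (y + z)⁆ = ⁅ofX D x, ofX D y⁆ * ⁅ofX D x, ofX D z⁆
    rw [ofX_add, cmul_right D.hcen, cmul_right D.hcen, ccp_one' D.hcen, mul_one]
  exact h

lemma cm_neg (x y : XX D) : cm x y = - cm y x := by
  have h : ofX D (cm x y) = ofX D (- cm y x) := by
    rw [ofX_neg]
    exact (commutatorElement_inv _ _).symm
  exact h

lemma cm_zero_left (y : XX D) : cm 0 y = 0 := by
  have := cm_add_left 0 0 y
  rw [add_zero] at this
  exact left_eq_add.1 this

/-- multiplication of `G` in terms of the additive structure -/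
lemma toX_mul (x y : XX D) : toX D (ofX D x * ofX D y) = x + y - D.j • cm x y := by
  have h : toX D (ofX D x * ofX D y) + D.j • cm x y = x + y := by
    have h1 : ofX D (toX D (ofX D x * ofX D y) + D.j • cm x y) = ofX D (x + y) := by
      rw [add_central _ _ (by
        intro g
        rw [ofX_nsmul]
        exact cpow_comm D.hcen _ _ g _), ofX_nsmul]
      rfl
    exact h1
  rw [← h, add_sub_cancel_right]

/-- the commutator as a bilinear map -/
def cmB : XX D →ₗ[ZMod p] XX D →ₗ[ZMod p] XX D :=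
  AddMonoidHom.toZModLinearMap p
    { toFun := fun x => AddMonoidHom.toZModLinearMap p
        { toFun := fun y => cm x y
          map_zero' := by rw [cm_neg, cm_zero_left, neg_zero]
          map_add' := fun y z => cm_add_right x y z }
      map_zero' := by
        ext y
        exact cm_zero_left y
      map_add' := fun x y => by
        ext z
        exact cm_add_left x y z }

@[simp] lemma cmB_apply (x y : XX D) : cmB x y = cm x y := rfl

end XX

section main
variable {G : Type*} [Group G] {p : ℕ} [hp : Fact p.Prime] (D : BData G p)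

lemma j_unit : ((D.j : ZMod p)) ≠ 0 := by
  intro h
  have h1 : ((2 * D.j + 1 : ℕ) : ZMod p) = 0 := by rw [D.hj]; simp
  push_cast at h1
  rw [h] at h1
  simp at h1

/-- commutator subgroup inside the additive group -/
def WW : Submodule (ZMod p) (XX D) :=
  AddSubgroup.toZModSubmodule p
    { carrier := {x | ofX D x ∈ commutator G}
      zero_mem' := (commutator G).one_mem
      add_mem' := fun {x y} hx hy => by
        change ofX D (x + y) ∈ commutator G
        rw [ofX_add]
        exact (commutator G).mul_mem ((commutator G).mul_mem hx hy)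
          ((commutator G).pow_mem (Subgroup.commutator_mem_commutator (Subgroup.mem_top _)
            (Subgroup.mem_top _)) _)
      neg_mem' := fun {x} hx => (commutator G).inv_mem hx }

lemma mem_WW (x : XX D) : x ∈ WW D ↔ ofX D x ∈ commutator G := Iff.rfl

lemma cm_mem (x y : XX D) : cm x y ∈ WW D := by
  rw [mem_WW]
  exact Subgroup.commutator_mem_commutator (Subgroup.mem_top (ofX D x))
    (Subgroup.mem_top (ofX D y))

lemma WW_central (x : XX D) (hx : x ∈ WW D) (g : G) : ofX D x * g = g * ofX D x := by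
  have h : commutator G ≤ Subgroup.center G := by
    rw [commutator_eq_closure, Subgroup.closure_le]
    rintro _ ⟨a, b, rfl⟩
    rw [SetLike.mem_coe, Subgroup.mem_center_iff]
    intro g
    exact (D.hcen a b g).symm
  have h2 := h ((mem_WW D x).1 hx)
  exact (Subgroup.mem_center_iff.1 h2 g).symm

lemma cm_WW_left (x y : XX D) (hx : x ∈ WW D) : cm x y = 0 := by
  have : ⁅ofX D x, ofX D y⁆ = 1 := by
    rw [commutatorElement_eq_one_iff_mul_comm]
    exact WW_central D x hx _
  change toX D ⁅ofX D x, ofX D y⁆ = toX D 1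
  rw [this]

lemma cm_WW_right (x y : XX D) (hx : y ∈ WW D) : cm x y = 0 := by
  rw [cm_neg, cm_WW_left D y x hx, neg_zero]

/-- a linear functional vanishing on all commutators vanishes on `WW` -/
lemma vanish (Λ : XX D →ₗ[ZMod p] ZMod p) (h : ∀ x y, Λ (cm x y) = 0) (w : XX D)
    (hw : w ∈ WW D) : Λ w = 0 := by
  have h1 : ∀ g : G, g ∈ commutator G → Λ (toX D g) = 0 := by
    intro g hg
    rw [commutator_eq_closure] at hg
    have hsub : Subgroup.closure (commutatorSet G) ≤ commutator G :=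
      (commutator_eq_closure G).ge
    induction hg using Subgroup.closure_induction with
    | mem x hx =>
      obtain ⟨a, b, rfl⟩ := hx
      exact h (toX D a) (toX D b)
    | one => exact map_zero Λ
    | mul x y hx hy ihx ihy =>
      have h2 : toX D (x * y) = toX D x + toX D y := by
        have h3 := add_central (D := D) (toX D x) (toX D y)
          (WW_central D (toX D y) (hsub hy))
        exact h3.symm
      rw [h2, map_add, ihx, ihy, add_zero]
    | inv x hx ihx =>
      have h2 : toX D x⁻¹ = - toX D x := rfl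
      rw [h2, map_neg, ihx, neg_zero]
  exact h1 (ofX D w) hw

include D in
theorem baer [Finite G] : ∃ (n m : ℕ) (B : Fin m → Matrix (Fin n) (Fin n) (ZMod p)),
    (∀ v w, bil B v w = - bil B w v) ∧
    (∀ c : Fin m → ZMod p, (∀ v w, c ⬝ᵥ bil B v w = 0) → c = 0) ∧ Nonempty (G ≃* Heis B) := by
  classical
  have hfin : Finite (XX D) := inferInstanceAs (Finite G)
  have hmf : Module.Finite (ZMod p) (XX D) := Module.Finite.of_finite
  set W := WW D with hW
  set n := Module.finrank (ZMod p) (XX D ⧸ W) with hn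
  set m := Module.finrank (ZMod p) W with hm
  let eV : (XX D ⧸ W) ≃ₗ[ZMod p] (Fin n → ZMod p) := (Module.finBasis (ZMod p) _).equivFun
  let eW : W ≃ₗ[ZMod p] (Fin m → ZMod p) := (Module.finBasis (ZMod p) _).equivFun
  obtain ⟨s, hs⟩ := W.mkQ.exists_rightInverse_of_surjective (Submodule.range_mkQ W)
  obtain ⟨π, hπ⟩ := W.subtype.exists_leftInverse_of_injective (Submodule.ker_subtype W)
  have hπ' : ∀ w : W, π w = w := fun w => LinearMap.congr_fun hπ w
  have hs' : ∀ v, W.mkQ (s v) = v := fun v => LinearMap.congr_fun hs v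
  let prV : XX D →ₗ[ZMod p] (Fin n → ZMod p) := eV.toLinearMap.comp W.mkQ
  let prW : XX D →ₗ[ZMod p] (Fin m → ZMod p) := eW.toLinearMap.comp π
  let ι : (Fin n → ZMod p) →ₗ[ZMod p] XX D := s.comp eV.symm.toLinearMap
  have hprι : ∀ v, prV (ι v) = v := by
    intro v
    change eV (W.mkQ (s (eV.symm v))) = v
    rw [hs', eV.apply_symm_apply]
  have hprV0 : ∀ x, prV x = 0 ↔ x ∈ W := by
    intro x
    change eV (W.mkQ x) = 0 ↔ x ∈ W
    rw [eV.map_eq_zero_iff, ← LinearMap.mem_ker, Submodule.ker_mkQ]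
  have hprW : ∀ w : W, prW w = eW w := by
    intro w
    change eW (π w) = eW w
    rw [hπ']
  let Q : Fin m → XX D →ₗ[ZMod p] XX D →ₗ[ZMod p] ZMod p := fun l =>
    (-(D.j : ZMod p)) • cmB.compr₂ ((LinearMap.proj l).comp prW)
  have hQ : ∀ l x y, Q l x y = -(D.j : ZMod p) * prW (cm x y) l := by
    intro l x y
    simp [Q]
  have hQW : ∀ l x y, Q l x y = Q l (ι (prV x)) (ι (prV y)) := by
    intro l x y
    have hx : x - ι (prV x) ∈ W := by
      rw [← hprV0, map_sub, hprι, sub_self]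
    have hy : y - ι (prV y) ∈ W := by
      rw [← hprV0, map_sub, hprι, sub_self]
    have h1 : cm x y = cm (ι (prV x)) (ι (prV y)) := by
      have e1 : cm x y = cmB ((x - ι (prV x)) + ι (prV x)) ((y - ι (prV y)) + ι (prV y)) := by
        rw [sub_add_cancel, sub_add_cancel]; rfl
      rw [e1, cmB_apply, cm_add_left, cm_WW_left D _ _ hx, zero_add, cm_add_right,
        cm_WW_right D _ _ hy, zero_add]
    rw [hQ, hQ, h1]
  let B : Fin m → Matrix (Fin n) (Fin n) (ZMod p) := fun l =>
    LinearMap.toMatrix₂' (ZMod p) ((Q l).compl₁₂ ι ι)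
  have hB : ∀ v w l, bil B v w l = Q l (ι v) (ι w) := by
    intro v w l
    have h1 : Matrix.toLinearMap₂' (ZMod p) (B l) = (Q l).compl₁₂ ι ι :=
      Matrix.toLinearMap₂'_toMatrix' _
    have h2 : Matrix.toLinearMap₂' (ZMod p) (B l) v w = Q l (ι v) (ι w) := by
      rw [h1]; rfl
    rw [← h2, Matrix.toLinearMap₂'_apply']
    rfl
  have hBpr : ∀ x y, bil B (prV x) (prV y) = (-(D.j : ZMod p)) • prW (cm x y) := by
    intro x y
    funext l
    rw [hB, ← hQW, hQ]
    rfl
  refine ⟨n, m, B, ?_, ?_, ?_⟩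
  · intro v w
    funext l
    rw [Pi.neg_apply, hB, hB, hQ, hQ, cm_neg, map_neg, Pi.neg_apply, mul_neg]
  · intro c hc
    let Λ : XX D →ₗ[ZMod p] ZMod p :=
      { toFun := fun x => c ⬝ᵥ prW x
        map_add' := fun x y => by rw [map_add, dotProduct_add]
        map_smul' := fun a x => by rw [map_smul, dotProduct_smul]; rfl }
    have h1 : ∀ x y, Λ (cm x y) = 0 := by
      intro x y
      have h2 := hc (prV x) (prV y)
      rw [hBpr, dotProduct_smul, smul_eq_mul, mul_eq_zero] at h2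
      rcases h2 with h2 | h2
      · exact absurd (neg_eq_zero.1 h2) (j_unit D)
      · exact h2
    have h3 : ∀ t : Fin m → ZMod p, c ⬝ᵥ t = 0 := by
      intro t
      have h4 := vanish D Λ h1 (eW.symm t : W) (eW.symm t).2
      change c ⬝ᵥ prW (eW.symm t : W) = 0 at h4
      rwa [hprW, eW.apply_symm_apply] at h4
    funext i
    have := h3 (Pi.single i 1)
    simpa using this
  · let φ : G →* Heis B :=
      { toFun := fun g => ⟨prV (toX D g), prW (toX D g)⟩
        map_one' := by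
          have : toX D (1 : G) = 0 := rfl
          rw [this, map_zero, map_zero]
          rfl
        map_mul' := fun g h => by
          have h1 : toX D (g * h) = toX D g + toX D h - D.j • cm (toX D g) (toX D h) :=
            toX_mul (toX D g) (toX D h)
          have h2 : prV (cm (toX D g) (toX D h)) = 0 := (hprV0 _).2 (cm_mem D _ _)
          apply Heis.ext
          · change prV (toX D (g * h)) = prV (toX D g) + prV (toX D h)
            rw [h1, map_sub, map_add, map_nsmul, h2, smul_zero, sub_zero]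
          · change prW (toX D (g * h)) = prW (toX D g) + prW (toX D h) +
              bil B (prV (toX D g)) (prV (toX D h))
            rw [hBpr, h1, map_sub, map_add, map_nsmul, sub_eq_add_neg, neg_smul,
              Nat.cast_smul_eq_nsmul] }
    have hφ : ∀ g, φ g = ⟨prV (toX D g), prW (toX D g)⟩ := fun _ => rfl
    refine ⟨MulEquiv.ofBijective φ ⟨?_, ?_⟩⟩
    · rw [injective_iff_map_eq_one]
      intro g hg
      rw [hφ] at hg
      have h1 : prV (toX D g) = 0 := congrArg Heis.v hg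
      have h2 : prW (toX D g) = 0 := congrArg Heis.t hg
      have h3 := (hprV0 _).1 h1
      have h4 := hprW ⟨toX D g, h3⟩
      rw [h2] at h4
      have h5 := eW.map_eq_zero_iff.1 h4.symm
      exact congrArg Subtype.val h5
    · intro a
      refine ⟨ofX D (ι a.v + (eW.symm (a.t - prW (ι a.v)) : W)), ?_⟩
      rw [hφ]
      apply Heis.ext
      · change prV (ι a.v + (eW.symm (a.t - prW (ι a.v)) : W)) = a.v
        rw [map_add, hprι, (hprV0 _).2 (eW.symm (a.t - prW (ι a.v))).2, add_zero]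
      · change prW (ι a.v + (eW.symm (a.t - prW (ι a.v)) : W)) = a.t
        rw [map_add, hprW, eW.apply_symm_apply, add_sub_cancel]

end main

end Pool.Agent.R691.Mip
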