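import Mathlib

set_option autoImplicit false

/-! # Cancellation of finite modules (Lovász counting) -/

namespace Pool.Agent.R691.Mip

universe u v

section
variable {S : Type v} [Ring S]

/-- number of injective homomorphisms -/
noncomputable def injc (Z X : Type u) [AddCommGroup Z] [Module S Z] [AddCommGroup X]
    [Module S X] : ℕ := Nat.card {f : Z →ₗ[S] X // Function.Injective f}

/-- fibre over a kernel -/
noncomputable def kerFibre {Z X : Type u} [AddCommGroup Z] [Module S Z] [AddCommGroup X]
    [Module S X] (K : Submodule S Z) :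
    {f : Z →ₗ[S] X // LinearMap.ker f = K} ≃ {g : (Z ⧸ K) →ₗ[S] X // Function.Injective g} where
  toFun f := ⟨K.liftQ f.1 f.2.ge, by
    rw [← LinearMap.ker_eq_bot, Submodule.ker_liftQ_eq_bot _ _ _ f.2.le]⟩
  invFun g := ⟨g.1.comp K.mkQ, by
    rw [LinearMap.ker_comp, LinearMap.ker_eq_bot.2 g.2, Submodule.comap_bot, Submodule.ker_mkQ]⟩
  left_inv f := by
    apply Subtype.ext
    ext x
    simp
  right_inv g := by
    apply Subtype.ext
    ext x
    simp

lemma injc_congr {Z Z' X : Type u} [AddCommGroup Z] [Module S Z] [AddCommGroup Z'] [Module S Z']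
    [AddCommGroup X] [Module S X] (e : Z ≃ₗ[S] Z') : injc (S := S) Z X = injc (S := S) Z' X := by
  refine Nat.card_congr
    { toFun := fun f => ⟨f.1.comp e.symm.toLinearMap, f.2.comp e.symm.injective⟩
      invFun := fun f => ⟨f.1.comp e.toLinearMap, f.2.comp e.injective⟩
      left_inv := ?_
      right_inv := ?_ }
  · intro f; apply Subtype.ext; ext x; simp
  · intro f; apply Subtype.ext; ext x; simp

lemma finite_lin {Z X : Type u} [AddCommGroup Z] [Module S Z] [AddCommGroup X]
    [Module S X] [Finite Z] [Finite X] : Finite (Z →ₗ[S] X) :=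
  Finite.of_injective (fun f => (f : Z → X)) DFunLike.coe_injective

lemma card_hom {Z X : Type u} [AddCommGroup Z] [Module S Z] [AddCommGroup X]
    [Module S X] [Finite Z] [Finite X] [Fintype (Submodule S Z)] :
    Nat.card (Z →ₗ[S] X) = ∑ K : Submodule S Z, injc (S := S) (Z ⧸ K) X := by
  have := finite_lin (S := S) (Z := Z) (X := X)
  have e := Equiv.sigmaFiberEquiv (fun f : Z →ₗ[S] X => LinearMap.ker f)
  rw [← Nat.card_congr e, Nat.card_sigma]
  refine Finset.sum_congr rfl fun K _ => ?_
  exact Nat.card_congr (kerFibre K)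

lemma injc_eq {X Y : Type u} [AddCommGroup X] [Module S X] [Finite X] [AddCommGroup Y]
    [Module S Y] [Finite Y]
    (h : ∀ (Z : Type u) [AddCommGroup Z] [Module S Z] [Finite Z],
      Nat.card (Z →ₗ[S] X) = Nat.card (Z →ₗ[S] Y)) (N : ℕ) :
    ∀ (Z : Type u) [AddCommGroup Z] [Module S Z] [Finite Z], Nat.card Z ≤ N →
      injc (S := S) Z X = injc (S := S) Z Y := by
  classical
  induction N with
  | zero =>
    intro Z _ _ _ hZ
    have : 0 < Nat.card Z := Nat.card_pos
    omega
  | succ N ih =>
    intro Z _ _ _ hZ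
    haveI : Finite (Submodule S Z) :=
      Finite.of_injective (fun K : Submodule S Z => (K : Set Z)) SetLike.coe_injective
    haveI := Fintype.ofFinite (Submodule S Z)
    have h1 := h Z
    rw [card_hom, card_hom, ← Finset.add_sum_erase _ _ (Finset.mem_univ (⊥ : Submodule S Z)),
      ← Finset.add_sum_erase _ _ (Finset.mem_univ (⊥ : Submodule S Z))] at h1
    have h2 : ∑ K ∈ Finset.univ.erase (⊥ : Submodule S Z), injc (S := S) (Z ⧸ K) X =
        ∑ K ∈ Finset.univ.erase (⊥ : Submodule S Z), injc (S := S) (Z ⧸ K) Y := by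
      refine Finset.sum_congr rfl fun K hK => ?_
      have hK' : K ≠ ⊥ := (Finset.mem_erase.1 hK).1
      haveI hfq : Finite (Z ⧸ K) := Finite.of_surjective K.mkQ K.mkQ_surjective
      apply ih
      have h3 := K.card_eq_card_quotient_mul_card
      have h4 : 1 < Nat.card K := by
        rw [Finite.one_lt_card_iff_nontrivial]
        exact (Submodule.nontrivial_iff_ne_bot).2 hK'
      have h5 : 0 < Nat.card (Z ⧸ K) := Nat.card_pos
      nlinarith
    rw [h2, Nat.add_right_cancel_iff] at h1
    rw [injc_congr (Submodule.quotEquivOfEqBot _ rfl).symm, h1,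
      injc_congr (Submodule.quotEquivOfEqBot (⊥ : Submodule S Z) rfl)]

/-- an equivalence on homomorphisms into a power -/
def homPi (Z X : Type u) [AddCommGroup Z] [Module S Z] [AddCommGroup X] [Module S X] (k : ℕ) :
    (Z →ₗ[S] (Fin k → X)) ≃ (Fin k → (Z →ₗ[S] X)) where
  toFun f i := (LinearMap.proj i).comp f
  invFun f := LinearMap.pi f
  left_inv f := by ext; simp
  right_inv f := by ext; simp

theorem cancel {X Y : Type u} [AddCommGroup X] [Module S X] [Finite X] [AddCommGroup Y]
    [Module S Y] [Finite Y] {k : ℕ} (hk : k ≠ 0) (e : (Fin k → X) ≃ₗ[S] (Fin k → Y)) :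
    Nonempty (X ≃ₗ[S] Y) := by
  have h : ∀ (Z : Type u) [AddCommGroup Z] [Module S Z] [Finite Z],
      Nat.card (Z →ₗ[S] X) = Nat.card (Z →ₗ[S] Y) := by
    intro Z _ _ _
    have h1 : Nat.card (Z →ₗ[S] (Fin k → X)) = Nat.card (Z →ₗ[S] (Fin k → Y)) :=
      Nat.card_congr
        { toFun := fun f => e.toLinearMap.comp f
          invFun := fun f => e.symm.toLinearMap.comp f
          left_inv := fun f => by ext; simp
          right_inv := fun f => by ext; simp }
    rw [Nat.card_congr (homPi Z X k), Nat.card_congr (homPi Z Y k), Nat.card_fun, Nat.card_fun,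
      Nat.card_fin] at h1
    exact Nat.pow_left_injective hk h1
  have hX := injc_eq h _ X le_rfl
  have hY := injc_eq h _ Y le_rfl
  have h1 : 0 < injc (S := S) X X := by
    haveI := finite_lin (S := S) (Z := X) (X := X)
    haveI : Nonempty {f : X →ₗ[S] X // Function.Injective f} :=
      ⟨⟨LinearMap.id, Function.injective_id⟩⟩
    exact Nat.card_pos
  have h2 : 0 < injc (S := S) Y Y := by
    haveI := finite_lin (S := S) (Z := Y) (X := Y)
    haveI : Nonempty {f : Y →ₗ[S] Y // Function.Injective f} :=
      ⟨⟨LinearMap.id, Function.injective_id⟩⟩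
    exact Nat.card_pos
  rw [hX] at h1
  rw [← hY] at h2
  obtain ⟨f, hf⟩ := (Nat.card_pos_iff.1 h1).1
  obtain ⟨g, hg⟩ := (Nat.card_pos_iff.1 h2).1
  have hc : Nat.card X = Nat.card Y :=
    le_antisymm (Nat.card_le_card_of_injective f hf) (Nat.card_le_card_of_injective g hg)
  have hb : Function.Bijective f := by
    haveI := Fintype.ofFinite X
    haveI := Fintype.ofFinite Y
    rw [Fintype.bijective_iff_injective_and_card]
    refine ⟨hf, ?_⟩
    rwa [Nat.card_eq_fintype_card, Nat.card_eq_fintype_card] at hc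
  exact ⟨LinearEquiv.ofBijective f hb⟩

end

end Pool.Agent.R691.Mip
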