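import Mathlib

set_option autoImplicit false

/-! # Linear functions on group algebras -/

namespace Pool.Agent.R691.Mip

open MonoidAlgebra

section
variable {F : Type*} [Field F] {G : Type*} {M : Type*} [AddCommGroup M] [Module F M]

/-- the linear extension of a function on `G` to the group algebra -/
noncomputable def lin (f : G → M) : MonoidAlgebra F G →ₗ[F] M :=
  (Finsupp.linearCombination F f) ∘ₗ (coeffLinearEquiv F).toLinearMap

@[simp] lemma lin_single (f : G → M) (g : G) (a : F) : lin f (single g a) = a • f g := by
  simp [lin, coeffLinearEquiv]

/-- the augmentation -/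
noncomputable def aug (F : Type*) [Field F] (G : Type*) : MonoidAlgebra F G →ₗ[F] F :=
  lin (fun _ => (1 : F))

@[simp] lemma aug_single (g : G) (a : F) : aug F G (single g a) = a := by
  simp [aug]

end

section group
variable {F : Type*} [Field F] {G : Type*} [Monoid G] {M : Type*} [AddCommGroup M] [Module F M]

@[simp] lemma aug_mul (x y : MonoidAlgebra F G) : aug F G (x * y) = aug F G x * aug F G y := by
  induction x using MonoidAlgebra.induction_linear with
  | zero => simp
  | add x x' hx hx' => rw [add_mul, map_add, map_add, hx, hx', add_mul]
  | single g a =>
    induction y using MonoidAlgebra.induction_linear with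
    | zero => simp
    | add y y' hy hy' => rw [mul_add, map_add, map_add, hy, hy', mul_add]
    | single h b => simp [single_mul_single]

@[simp] lemma aug_one : aug F G 1 = 1 := by simp [one_def]

@[simp] lemma aug_pow (x : MonoidAlgebra F G) (k : ℕ) : aug F G (x ^ k) = aug F G x ^ k := by
  induction k with
  | zero => simp
  | succ k ih => rw [pow_succ, pow_succ, aug_mul, ih]

/-- additive functions -/
lemma lin_mul_of_add (f : G → M) (hf : ∀ g h, f (g * h) = f g + f h)
    (x y : MonoidAlgebra F G) :
    lin f (x * y) = aug F G y • lin f x + aug F G x • lin f y := by
  induction x using MonoidAlgebra.induction_linear with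
  | zero => simp
  | add x x' hx hx' =>
    rw [add_mul, map_add, map_add, map_add, hx, hx', smul_add, add_smul]; abel
  | single g a =>
    induction y using MonoidAlgebra.induction_linear with
    | zero => simp
    | add y y' hy hy' =>
      rw [mul_add, map_add, map_add, map_add, hy, hy', smul_add, add_smul]; abel
    | single h b =>
      simp only [single_mul_single, lin_single, aug_single, hf, smul_add, smul_smul]
      rw [mul_comm b a]

lemma lin_pow_of_add (f : G → M) (hf : ∀ g h, f (g * h) = f g + f h)
    (x : MonoidAlgebra F G) (hx : aug F G x = 1) (k : ℕ) :
    lin f (x ^ k) = (k : F) • lin f x := by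
  induction k with
  | zero =>
    have h1 : f 1 = 0 := by
      have := hf 1 1
      rw [mul_one] at this
      exact left_eq_add.1 this
    simp [one_def, h1]
  | succ k ih =>
    rw [pow_succ, lin_mul_of_add f hf, ih, hx, one_smul, aug_pow, hx, one_pow, one_smul]
    push_cast
    rw [add_smul, one_smul]

end group

end Pool.Agent.R691.Mip
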