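import Mathlib
import Pool.Agent.R691.Mip.Heis
import Pool.Agent.R691.Mip.Lin

set_option autoImplicit false

/-! # Two functions on the group algebra of an integral Heisenberg group -/

namespace Pool.Agent.R691.Mip

open Matrix MonoidAlgebra

variable {n : ℕ} (Bz : Matrix (Fin n) (Fin n) ℤ)

/-- the integral group `ℤ^n × ℤ` -/
abbrev Gh := Heis (fun _ : Fin 1 => Bz)

section
variable (p : ℕ) (F : Type*) [Field F]

/-- the form over `F` -/
def bF (x y : Fin n → F) : F := x ⬝ᵥ ((Bz.map (Int.cast : ℤ → F)) *ᵥ y)

/-- first component over `F` -/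
def fP (g : Gh Bz) : Fin n → F := fun i => (g.v i : F)

/-- the quotient of the first component by `p` -/
def fV (g : Gh Bz) : Fin n → F := fun i => ((g.v i / (p : ℤ) : ℤ) : F)

/-- the corrected quotient of the second component by `p` -/
def fT (g : Gh Bz) : F := ((g.t 0 / (p : ℤ) : ℤ) : F) - bF Bz F (fV Bz p F g) (fP Bz F g)

end

section forms
variable {F : Type*} [Field F]

lemma bF_add_left (x x' y : Fin n → F) : bF Bz F (x + x') y = bF Bz F x y + bF Bz F x' y := by
  simp [bF, add_dotProduct]
lemma bF_add_right (x y y' : Fin n → F) : bF Bz F x (y + y') = bF Bz F x y + bF Bz F x y' := by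
  simp [bF, mulVec_add, dotProduct_add]
lemma bF_smul_left (c : F) (x y : Fin n → F) : bF Bz F (c • x) y = c * bF Bz F x y := by
  simp [bF, smul_dotProduct]
lemma bF_smul_right (c : F) (x y : Fin n → F) : bF Bz F x (c • y) = c * bF Bz F x y := by
  simp [bF, mulVec_smul, dotProduct_smul]
@[simp] lemma bF_zero_left (y : Fin n → F) : bF Bz F 0 y = 0 := by simp [bF]
@[simp] lemma bF_zero_right (y : Fin n → F) : bF Bz F y 0 = 0 := by simp [bF]
lemma bF_sum_right {ι : Type*} (s : Finset ι) (x : Fin n → F) (y : ι → Fin n → F) :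
    bF Bz F x (∑ i ∈ s, y i) = ∑ i ∈ s, bF Bz F x (y i) := by
  classical
  induction s using Finset.induction_on with
  | empty => simp
  | insert a s ha ih => rw [Finset.sum_insert ha, Finset.sum_insert ha, bF_add_right, ih]
lemma bF_sum_left {ι : Type*} (s : Finset ι) (x : Fin n → F) (y : ι → Fin n → F) :
    bF Bz F (∑ i ∈ s, y i) x = ∑ i ∈ s, bF Bz F (y i) x := by
  classical
  induction s using Finset.induction_on with
  | empty => simp
  | insert a s ha ih => rw [Finset.sum_insert ha, Finset.sum_insert ha, bF_add_left, ih]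

/-- the cast of the integral form -/
lemma cast_bil (v w : Fin n → ℤ) :
    ((bil (fun _ : Fin 1 => Bz) v w 0 : ℤ) : F) =
      bF Bz F (fun i => (v i : F)) (fun i => (w i : F)) := by
  simp [bil, bF, dotProduct, mulVec, Matrix.map_apply]

end forms

section main
variable (p : ℕ) [hp : Fact p.Prime] {F : Type*} [Field F] [CharP F p]

lemma fP_mul (g h : Gh Bz) : fP Bz F (g * h) = fP Bz F g + fP Bz F h := by
  funext i; simp [fP]

/-- two elements which are congruent modulo `p`, with the difference -/
def Cg (g g' : Gh Bz) (a : Fin n → ℤ) (c : ℤ) : Prop :=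
  (∀ i, g'.v i = g.v i + (p : ℤ) * a i) ∧ g'.t 0 = g.t 0 + (p : ℤ) * c

omit hp in
lemma fP_congr {g g' : Gh Bz} {a : Fin n → ℤ} {c : ℤ} (h : Cg Bz p g g' a c) :
    fP Bz F g' = fP Bz F g := by
  funext i
  simp [fP, h.1 i]

lemma fV_congr {g g' : Gh Bz} {a : Fin n → ℤ} {c : ℤ} (h : Cg Bz p g g' a c) :
    fV Bz p F g' = fV Bz p F g + fun i => (a i : F) := by
  have hp0 : (p : ℤ) ≠ 0 := by exact_mod_cast hp.out.ne_zero
  funext i
  simp only [fV, Pi.add_apply]
  rw [h.1 i, Int.add_mul_ediv_left _ _ hp0]
  push_cast
  ring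

lemma fT_congr {g g' : Gh Bz} {a : Fin n → ℤ} {c : ℤ} (h : Cg Bz p g g' a c) :
    fT Bz p F g' = fT Bz p F g + ((c : F) - bF Bz F (fun i => (a i : F)) (fP Bz F g)) := by
  have hp0 : (p : ℤ) ≠ 0 := by exact_mod_cast hp.out.ne_zero
  simp only [fT]
  rw [h.2, Int.add_mul_ediv_left _ _ hp0, fV_congr Bz p h, fP_congr Bz p h, bF_add_left]
  push_cast
  ring

omit hp in
lemma Cg_mul_right {g g' : Gh Bz} {a : Fin n → ℤ} {c : ℤ} (h : Cg Bz p g g' a c) (x : Gh Bz) :
    Cg Bz p (g * x) (g' * x) a (c + bil (fun _ : Fin 1 => Bz) a x.v 0) := by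
  constructor
  · intro i; simp [h.1 i]; ring
  · have hv : g'.v = g.v + (p : ℤ) • a := by funext i; simp [h.1 i]
    simp only [Heis.mul_t, Pi.add_apply, h.2, hv, bil_add_left, bil_smul_left, Pi.smul_apply,
      smul_eq_mul]
    ring

omit hp in
lemma Cg_mul_left {g g' : Gh Bz} {a : Fin n → ℤ} {c : ℤ} (h : Cg Bz p g g' a c) (x : Gh Bz) :
    Cg Bz p (x * g) (x * g') a (c + bil (fun _ : Fin 1 => Bz) x.v a 0) := by
  constructor
  · intro i; simp [h.1 i]; ring
  · have hv : g'.v = g.v + (p : ℤ) • a := by funext i; simp [h.1 i]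
    simp only [Heis.mul_t, Pi.add_apply, h.2, hv, bil_add_right, bil_smul_right, Pi.smul_apply,
      smul_eq_mul]
    ring

/-- the three linear functions -/
noncomputable def LP : MonoidAlgebra F (Gh Bz) →ₗ[F] (Fin n → F) := lin (fP Bz F)
/-- the quotient function -/
noncomputable def LV : MonoidAlgebra F (Gh Bz) →ₗ[F] (Fin n → F) := lin (fV Bz p F)
/-- the corrected quotient function -/
noncomputable def LT : MonoidAlgebra F (Gh Bz) →ₗ[F] F := lin (fT Bz p F)

/-- the kernel of the reduction modulo `p` -/
noncomputable def NN (F : Type*) [Field F] : Submodule F (MonoidAlgebra F (Gh Bz)) :=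
  Submodule.span F {x | ∃ (g g' : Gh Bz) (a : Fin n → ℤ) (c : ℤ),
    Cg Bz p g g' a c ∧ x = single g' (1 : F) - single g 1}

lemma LP_mul (x y : MonoidAlgebra F (Gh Bz)) :
    LP Bz (x * y) = aug F _ y • LP Bz x + aug F _ x • LP Bz y :=
  lin_mul_of_add _ (fP_mul Bz) x y

lemma LP_pow (x : MonoidAlgebra F (Gh Bz)) (hx : aug F _ x = 1) (k : ℕ) :
    LP Bz (x ^ k) = (k : F) • LP Bz x :=
  lin_pow_of_add _ (fP_mul Bz) x hx k

omit hp in
lemma LP_NN {u : MonoidAlgebra F (Gh Bz)} (hu : u ∈ NN Bz p F) : LP Bz u = 0 := by
  induction hu using Submodule.span_induction with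
  | mem x hx =>
    obtain ⟨g, g', a, c, h, rfl⟩ := hx
    simp [LP, fP_congr Bz p h]
  | zero => simp
  | add x y _ _ hx hy => simp [hx, hy]
  | smul t x _ hx => simp [hx]

omit hp [CharP F p] in
lemma aug_NN {u : MonoidAlgebra F (Gh Bz)} (hu : u ∈ NN Bz p F) : aug F _ u = 0 := by
  induction hu using Submodule.span_induction with
  | mem x hx =>
    obtain ⟨g, g', a, c, h, rfl⟩ := hx
    simp
  | zero => simp
  | add x y _ _ hx hy => simp [hx, hy]
  | smul t x _ hx => simp [hx]

omit hp [CharP F p] in
lemma NN_mul_right {u : MonoidAlgebra F (Gh Bz)} (hu : u ∈ NN Bz p F)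
    (x : MonoidAlgebra F (Gh Bz)) : u * x ∈ NN Bz p F := by
  induction hu using Submodule.span_induction with
  | mem u hu =>
    obtain ⟨g, g', a, c, h, rfl⟩ := hu
    induction x using MonoidAlgebra.induction_linear with
    | zero => simp
    | add x y hx hy => rw [mul_add]; exact Submodule.add_mem _ hx hy
    | single k b =>
      have : (single g' (1 : F) - single g 1) * single k b =
          b • (single (g' * k) (1 : F) - single (g * k) 1) := by
        simp [sub_mul, single_mul_single, smul_sub, smul_single']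
      rw [this]
      exact Submodule.smul_mem _ _ (Submodule.subset_span ⟨_, _, _, _, Cg_mul_right Bz p h k, rfl⟩)
  | zero => simp
  | add u v _ _ hu hv => rw [add_mul]; exact Submodule.add_mem _ hu hv
  | smul t u _ hu => rw [smul_mul_assoc]; exact Submodule.smul_mem _ _ hu

omit hp [CharP F p] in
lemma NN_mul_left {u : MonoidAlgebra F (Gh Bz)} (hu : u ∈ NN Bz p F)
    (x : MonoidAlgebra F (Gh Bz)) : x * u ∈ NN Bz p F := by
  induction hu using Submodule.span_induction with
  | mem u hu =>
    obtain ⟨g, g', a, c, h, rfl⟩ := hu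
    induction x using MonoidAlgebra.induction_linear with
    | zero => simp
    | add x y hx hy => rw [add_mul]; exact Submodule.add_mem _ hx hy
    | single k b =>
      have : single k b * (single g' (1 : F) - single g 1) =
          b • (single (k * g') (1 : F) - single (k * g) 1) := by
        simp [mul_sub, single_mul_single, smul_sub, smul_single']
      rw [this]
      exact Submodule.smul_mem _ _ (Submodule.subset_span ⟨_, _, _, _, Cg_mul_left Bz p h k, rfl⟩)
  | zero => simp
  | add u v _ _ hu hv => rw [mul_add]; exact Submodule.add_mem _ hu hv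
  | smul t u _ hu => rw [mul_smul_comm]; exact Submodule.smul_mem _ _ hu

lemma LV_mul_right {u : MonoidAlgebra F (Gh Bz)} (hu : u ∈ NN Bz p F)
    (x : MonoidAlgebra F (Gh Bz)) : LV Bz p (u * x) = aug F _ x • LV Bz p u := by
  induction hu using Submodule.span_induction with
  | mem u hu =>
    obtain ⟨g, g', a, c, h, rfl⟩ := hu
    induction x using MonoidAlgebra.induction_linear with
    | zero => simp
    | add x y hx hy => rw [mul_add, map_add, map_add, hx, hy, add_smul]
    | single k b =>
      simp only [sub_mul, single_mul_single, map_sub, LV, lin_single, aug_single, one_mul,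
        fV_congr Bz p (Cg_mul_right Bz p h k), fV_congr Bz p h, one_smul, smul_add]
      module
  | zero => simp
  | add u v _ _ hu hv => rw [add_mul, map_add, map_add, hu, hv, smul_add]
  | smul t u _ hu => rw [smul_mul_assoc, map_smul, map_smul, hu, smul_comm]

lemma LV_mul_left {u : MonoidAlgebra F (Gh Bz)} (hu : u ∈ NN Bz p F)
    (x : MonoidAlgebra F (Gh Bz)) : LV Bz p (x * u) = aug F _ x • LV Bz p u := by
  induction hu using Submodule.span_induction with
  | mem u hu =>
    obtain ⟨g, g', a, c, h, rfl⟩ := hu
    induction x using MonoidAlgebra.induction_linear with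
    | zero => simp
    | add x y hx hy => rw [add_mul, map_add, map_add, hx, hy, add_smul]
    | single k b =>
      simp only [mul_sub, single_mul_single, map_sub, LV, lin_single, aug_single, mul_one,
        fV_congr Bz p (Cg_mul_left Bz p h k), fV_congr Bz p h, one_smul, smul_add]
      module
  | zero => simp
  | add u v _ _ hu hv => rw [mul_add, map_add, map_add, hu, hv, smul_add]
  | smul t u _ hu => rw [mul_smul_comm, map_smul, map_smul, hu, smul_comm]

lemma LT_mul_right {u : MonoidAlgebra F (Gh Bz)} (hu : u ∈ NN Bz p F)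
    (x : MonoidAlgebra F (Gh Bz)) : LT Bz p (u * x) = aug F _ x * LT Bz p u := by
  induction hu using Submodule.span_induction with
  | mem u hu =>
    obtain ⟨g, g', a, c, h, rfl⟩ := hu
    induction x using MonoidAlgebra.induction_linear with
    | zero => simp
    | add x y hx hy => rw [mul_add, map_add, map_add, hx, hy, add_mul]
    | single k b =>
      simp only [sub_mul, single_mul_single, map_sub, LT, lin_single, aug_single, one_mul,
        fT_congr Bz p (Cg_mul_right Bz p h k), fT_congr Bz p h, smul_eq_mul]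
      push_cast
      rw [cast_bil, fP_mul, bF_add_right]
      have hk : (fun i => (k.v i : F)) = fP Bz F k := rfl
      rw [hk]
      ring
  | zero => simp
  | add u v _ _ hu hv => rw [add_mul, map_add, map_add, hu, hv, mul_add]
  | smul t u _ hu => rw [smul_mul_assoc, map_smul, map_smul, hu]; simp only [smul_eq_mul]; ring

/-- the form is alternating modulo `p` -/
def AltF (F : Type*) [Field F] : Prop := ∀ x y : Fin n → F, bF Bz F x y = - bF Bz F y x

lemma LT_mul_left (hB : AltF Bz F) {u : MonoidAlgebra F (Gh Bz)} (hu : u ∈ NN Bz p F)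
    (x : MonoidAlgebra F (Gh Bz)) :
    LT Bz p (x * u) = aug F _ x * LT Bz p u + 2 * bF Bz F (LP Bz x) (LV Bz p u) := by
  induction hu using Submodule.span_induction with
  | mem u hu =>
    obtain ⟨g, g', a, c, h, rfl⟩ := hu
    induction x using MonoidAlgebra.induction_linear with
    | zero => simp
    | add x y hx hy =>
      rw [add_mul, map_add, map_add, map_add, hx, hy, add_mul, bF_add_left]; ring
    | single k b =>
      simp only [mul_sub, single_mul_single, map_sub, LT, LP, LV, lin_single, aug_single, mul_one,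
        fT_congr Bz p (Cg_mul_left Bz p h k), fT_congr Bz p h, fV_congr Bz p h, one_smul,
        smul_eq_mul, add_sub_cancel_left, bF_smul_left]
      push_cast
      rw [cast_bil, fP_mul, bF_add_right, hB (fun i => (a i : F)) (fP Bz F k)]
      have hk : (fun i => (k.v i : F)) = fP Bz F k := rfl
      rw [hk]
      ring
  | zero => simp
  | add u v _ _ hu hv =>
    rw [mul_add, map_add, map_add, map_add, hu, hv, mul_add, bF_add_right]; ring
  | smul t u _ hu =>
    rw [mul_smul_comm, map_smul, map_smul, map_smul, hu, bF_smul_right]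
    simp only [smul_eq_mul]; ring

omit hp [CharP F p] in
lemma LV_comm (x y : MonoidAlgebra F (Gh Bz)) : LV Bz p (x * y) = LV Bz p (y * x) := by
  induction x using MonoidAlgebra.induction_linear with
  | zero => simp
  | add x x' hx hx' => rw [add_mul, mul_add, map_add, map_add, hx, hx']
  | single g a =>
    induction y using MonoidAlgebra.induction_linear with
    | zero => simp
    | add y y' hy hy' => rw [mul_add, add_mul, map_add, map_add, hy, hy']
    | single h b =>
      simp only [single_mul_single, LV, lin_single]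
      rw [mul_comm b a]
      congr 1
      funext i
      simp [fV, add_comm]

end main

end Pool.Agent.R691.Mip
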