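import Mathlib
import Pool.Agent.R691.Mip.Psi

set_option autoImplicit false

/-! # The main identity -/

namespace Pool.Agent.R691.Mip

open Matrix MonoidAlgebra

section frob
variable {n : ℕ} (Bz : Matrix (Fin n) (Fin n) ℤ) (p : ℕ) [hp : Fact p.Prime]
  {F : Type*} [Field F] [CharP F p]

/-- the projection to the abelian group -/
def prV : Gh Bz →* Multiplicative (Fin n → ℤ) where
  toFun g := Multiplicative.ofAdd g.v
  map_one' := rfl
  map_mul' _ _ := rfl

/-- first component over `F` -/
def fPc (F : Type*) [Field F] (g : Multiplicative (Fin n → ℤ)) : Fin n → F :=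
  fun i => ((Multiplicative.toAdd g) i : F)

/-- quotients of the coordinates by `p` -/
def fVc (F : Type*) [Field F] (g : Multiplicative (Fin n → ℤ)) : Fin n → F :=
  fun i => (((Multiplicative.toAdd g) i / (p : ℤ) : ℤ) : F)

omit hp in
lemma int_pow_char [Fact p.Prime] (z : ℤ) : ((z : F)) ^ p = z := by
  have h := map_intCast (frobenius F p) z
  rwa [frobenius_def] at h

lemma lin_fVc_pow (y : MonoidAlgebra F (Multiplicative (Fin n → ℤ))) :
    lin (fVc p F) (y ^ p) = fun i => (lin (fPc F) y i) ^ p := by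
  have hp0 : (p : ℤ) ≠ 0 := by exact_mod_cast hp.out.ne_zero
  have : CharP (MonoidAlgebra F (Multiplicative (Fin n → ℤ))) p :=
    charP_of_injective_algebraMap (algebraMap F _).injective p
  induction y using MonoidAlgebra.induction_linear with
  | zero =>
    funext i
    simp [hp.out.ne_zero]
  | add x y hx hy =>
    rw [add_pow_char, map_add, hx, hy]
    funext i
    simp only [map_add, Pi.add_apply]
    rw [add_pow_char]
  | single g a =>
    funext i
    rw [single_pow]
    simp only [lin_single, Pi.smul_apply, smul_eq_mul, fVc, fPc, toAdd_pow]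
    rw [mul_pow, int_pow_char]
    congr 1
    simp [Int.mul_ediv_cancel_left _ hp0]

lemma LV_eq (x : MonoidAlgebra F (Gh Bz)) :
    LV Bz p x = lin (fVc p F) (mapDomainAlgHom F F (prV Bz) x) := by
  induction x using MonoidAlgebra.induction_linear with
  | zero => simp
  | add x y hx hy => rw [map_add, map_add, map_add, hx, hy]
  | single g a =>
    simp [LV]
    rfl

omit hp [CharP F p] in
lemma LP_eq (x : MonoidAlgebra F (Gh Bz)) :
    LP Bz x = lin (fPc F) (mapDomainAlgHom F F (prV Bz) x) := by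
  induction x using MonoidAlgebra.induction_linear with
  | zero => simp
  | add x y hx hy => rw [map_add, map_add, map_add, hx, hy]
  | single g a =>
    simp [LP]
    rfl

lemma LV_pow (x : MonoidAlgebra F (Gh Bz)) :
    LV Bz p (x ^ p) = fun i => (LP Bz x i) ^ p := by
  rw [LV_eq, map_pow, lin_fVc_pow, LP_eq]

omit hp [CharP F p] in
lemma LV_one : LV Bz p (1 : MonoidAlgebra F (Gh Bz)) = 0 := by
  funext i
  simp [LV, one_def, fV]

omit hp [CharP F p] in
lemma LT_one : LT Bz p (1 : MonoidAlgebra F (Gh Bz)) = 0 := by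
  have : fV Bz p F 1 = 0 := by funext i; simp [fV]
  simp [LT, one_def, fT, this]

end frob

section key
variable {n : ℕ} {Bz : Matrix (Fin n) (Fin n) ℤ} {p : ℕ} [hp : Fact p.Prime]
  {F : Type*} [Field F] [CharP F p]


/-- commuting `a` past powers of `b` -/
lemma comm_pow {A : Type*} [Ring A] (a b c : A) (k : ℕ) :
    a * b ^ k = (c * b) ^ k * a +
      ∑ s ∈ Finset.range k, (c * b) ^ s * (a * b - c * b * a) * b ^ (k - 1 - s) := by
  induction k with
  | zero => simp
  | succ k ih =>
    have h1 : ∀ s ∈ Finset.range k, (c * b) ^ s * (a * b - c * b * a) * b ^ (k + 1 - 1 - s) =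
        (c * b) ^ s * (a * b - c * b * a) * b ^ (k - 1 - s) * b := by
      intro s hs
      rw [Finset.mem_range] at hs
      have : k + 1 - 1 - s = (k - 1 - s) + 1 := by omega
      rw [this, pow_succ, ← mul_assoc]
    rw [Finset.sum_range_succ, Finset.sum_congr rfl h1, ← Finset.sum_mul, pow_succ, ← mul_assoc,
      ih, add_mul]
    have : k + 1 - 1 - k = 0 := by omega
    rw [this, pow_zero, mul_one, pow_succ]
    noncomm_ring

lemma pow_mul_comm' {A : Type*} [Ring A] (b c : A) (k : ℕ) :
    b ^ k * c = c * b ^ k + ∑ s ∈ Finset.range k, b ^ s * (b * c - c * b) * b ^ (k - 1 - s) := by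
  induction k with
  | zero => simp
  | succ k ih =>
    have h1 : ∀ s ∈ Finset.range k, b ^ (s + 1) * (b * c - c * b) * b ^ (k + 1 - 1 - (s + 1)) =
        b * (b ^ s * (b * c - c * b) * b ^ (k - 1 - s)) := by
      intro s hs
      rw [Finset.mem_range] at hs
      have : k + 1 - 1 - (s + 1) = (k - 1 - s) := by omega
      rw [this, pow_succ', ← mul_assoc, ← mul_assoc]
    rw [Finset.sum_range_succ', Finset.sum_congr rfl h1, ← Finset.mul_sum, pow_succ', mul_assoc,
      ih, mul_add]
    have : k + 1 - 1 - 0 = k := by omega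
    rw [this, pow_zero, one_mul]
    noncomm_ring

/-- the sum of the `LT` of `x^s u y^(p-1-s)` vanishes -/
lemma LT_sum (h2 : p ≠ 2) (hB : AltF Bz F) {u : MonoidAlgebra F (Gh Bz)} (hu : u ∈ NN Bz p F)
    (x y : MonoidAlgebra F (Gh Bz)) (hx : aug F _ x = 1) (hy : aug F _ y = 1) :
    LT Bz p (∑ s ∈ Finset.range p, x ^ s * u * y ^ (p - 1 - s)) = 0 := by
  have h1 : ∀ s ∈ Finset.range p, LT Bz p (x ^ s * u * y ^ (p - 1 - s)) =
      LT Bz p u + 2 * ((s : F) * bF Bz F (LP Bz x) (LV Bz p u)) := by
    intro s _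
    rw [LT_mul_right Bz p (NN_mul_left Bz p hu _), aug_pow, hy, one_pow, one_mul,
      LT_mul_left Bz p hB hu, aug_pow, hx, one_pow, one_mul, LP_pow Bz x hx, bF_smul_left]
  rw [map_sum, Finset.sum_congr rfl h1, Finset.sum_add_distrib, Finset.sum_const,
    Finset.card_range, ← Finset.mul_sum, ← Finset.sum_mul, ← Nat.cast_sum,
    Finset.sum_range_id]
  have hp2 : p * (p - 1) / 2 = p * ((p - 1) / 2) := by
    obtain ⟨k, hk⟩ := hp.out.odd_of_ne_two h2
    have : p - 1 = 2 * k := by omega
    rw [this, Nat.mul_div_assoc _ (dvd_mul_right 2 k)]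
  rw [hp2]
  simp [nsmul_eq_mul]

/-- `LT` of a difference of powers -/
lemma LT_pow_sub (h2 : p ≠ 2) (hB : AltF Bz F) {x y : MonoidAlgebra F (Gh Bz)}
    (hxy : x - y ∈ NN Bz p F) (hx : aug F _ x = 1) (hy : aug F _ y = 1) :
    LT Bz p (x ^ p) = LT Bz p (y ^ p) := by
  have h : x ^ p - y ^ p = ∑ s ∈ Finset.range p, x ^ s * (x - y) * y ^ (p - 1 - s) := by
    have : ∀ k : ℕ, x ^ k - y ^ k =
        ∑ s ∈ Finset.range k, x ^ s * (x - y) * y ^ (k - 1 - s) := by
      intro k
      induction k with
      | zero => simp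
      | succ k ih =>
        have h1 : ∀ s ∈ Finset.range k, x ^ s * (x - y) * y ^ (k + 1 - 1 - s) =
            x ^ s * (x - y) * y ^ (k - 1 - s) * y := by
          intro s hs
          rw [Finset.mem_range] at hs
          have : k + 1 - 1 - s = (k - 1 - s) + 1 := by omega
          rw [this, pow_succ, ← mul_assoc]
        rw [Finset.sum_range_succ, Finset.sum_congr rfl h1, ← Finset.sum_mul, ← ih]
        have : k + 1 - 1 - k = 0 := by omega
        rw [this, pow_zero, mul_one, pow_succ, pow_succ]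
        noncomm_ring
    exact this p
  have := LT_sum h2 hB hxy x y hx hy
  rw [← h, map_sub, sub_eq_zero] at this
  exact this

/-- `LT ((cb)^k) = LT (c^k b^k)` up to a binomial coefficient -/
lemma LT_mul_pow (hB : AltF Bz F) {b c : MonoidAlgebra F (Gh Bz)}
    (hb : aug F _ b = 1) (hc : aug F _ c = 1) (hbc : b * c - c * b ∈ NN Bz p F) (k : ℕ) :
    (c * b) ^ k - c ^ k * b ^ k ∈ NN Bz p F ∧
    LT Bz p ((c * b) ^ k - c ^ k * b ^ k) = (k * (k - 1) / 2 : ℕ) * LT Bz p (b * c - c * b) := by
  have hV : LV Bz p (b * c - c * b) = 0 := by rw [map_sub, LV_comm Bz p b c, sub_self]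
  induction k with
  | zero => simp
  | succ k ih =>
    have h1 : (c * b) ^ (k + 1) - c ^ (k + 1) * b ^ (k + 1) =
        ((c * b) ^ k - c ^ k * b ^ k) * (c * b) +
        ∑ s ∈ Finset.range k, c ^ k * (b ^ s * (b * c - c * b) * b ^ (k - 1 - s)) * b := by
      have h2 := pow_mul_comm' b c k
      rw [← Finset.sum_mul, ← Finset.mul_sum]
      have h3 : ∑ s ∈ Finset.range k, b ^ s * (b * c - c * b) * b ^ (k - 1 - s) =
          b ^ k * c - c * b ^ k := by rw [h2]; abel
      rw [h3, pow_succ, pow_succ c k, pow_succ b k]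
      noncomm_ring
    have h2 : ∀ s ∈ Finset.range k,
        c ^ k * (b ^ s * (b * c - c * b) * b ^ (k - 1 - s)) * b ∈ NN Bz p F := fun s _ =>
      NN_mul_right Bz p (NN_mul_left Bz p (NN_mul_right Bz p (NN_mul_left Bz p hbc _) _) _) _
    have h3 : ∀ s ∈ Finset.range k,
        LT Bz p (c ^ k * (b ^ s * (b * c - c * b) * b ^ (k - 1 - s)) * b) =
          LT Bz p (b * c - c * b) := by
      intro s _
      rw [LT_mul_right Bz p (NN_mul_left Bz p (NN_mul_right Bz p (NN_mul_left Bz p hbc _) _) _),
        hb, one_mul, LT_mul_left Bz p hB (NN_mul_right Bz p (NN_mul_left Bz p hbc _) _), aug_pow,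
        hc, one_pow, one_mul, LV_mul_right Bz p (NN_mul_left Bz p hbc _),
        LV_mul_left Bz p hbc, hV, smul_zero, smul_zero, bF_zero_right, mul_zero, add_zero,
        LT_mul_right Bz p (NN_mul_left Bz p hbc _), aug_pow, hb, one_pow, one_mul,
        LT_mul_left Bz p hB hbc, aug_pow, hb, one_pow, one_mul, hV, bF_zero_right, mul_zero,
        add_zero]
    refine ⟨?_, ?_⟩
    · rw [h1]
      exact Submodule.add_mem _ (NN_mul_right Bz p ih.1 _) (Submodule.sum_mem _ h2)
    · rw [h1, map_add, map_sum, Finset.sum_congr rfl h3, LT_mul_right Bz p ih.1, aug_mul, hc, hb,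
        one_mul, one_mul, ih.2, Finset.sum_const, Finset.card_range, nsmul_eq_mul, ← add_mul,
        ← Nat.cast_add]
      congr 2
      have := Finset.sum_range_id k
      have h4 := Finset.sum_range_id (k + 1)
      rw [Finset.sum_range_succ, this] at h4
      exact h4

end key

end Pool.Agent.R691.Mip
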