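import Mathlib
import Pool.Agent.R691.Mip.Psi2

set_option autoImplicit false

/-! # A homomorphism on units of order `p` -/

namespace Pool.Agent.R691.Mip

open Matrix MonoidAlgebra

section key
variable {n : ℕ} {Bz : Matrix (Fin n) (Fin n) ℤ} {p : ℕ} [hp : Fact p.Prime]
  {F : Type*} [Field F] [CharP F p]

lemma choose_two_zero (h2 : p ≠ 2) : ((p * (p - 1) / 2 : ℕ) : F) = 0 := by
  have hp2 : p * (p - 1) / 2 = p * ((p - 1) / 2) := by
    obtain ⟨k, hk⟩ := hp.out.odd_of_ne_two h2
    have : p - 1 = 2 * k := by omega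
    rw [this, Nat.mul_div_assoc _ (dvd_mul_right 2 k)]
  rw [hp2]
  simp

theorem key (h2 : p ≠ 2) (hB : AltF Bz F) {a b c : MonoidAlgebra F (Gh Bz)}
    (hb : aug F _ b = 1) (hc : aug F _ c = 1) (ha : aug F _ a = 1)
    (hab : a * b - c * b * a ∈ NN Bz p F) (hbc : b * c - c * b ∈ NN Bz p F)
    (hbp : b ^ p - 1 ∈ NN Bz p F) (hcp : c ^ p - 1 ∈ NN Bz p F) :
    LT Bz p (c ^ p) = 2 * bF Bz F (LP Bz a) (fun i => (LP Bz b i) ^ p) := by
  have e1 := comm_pow a b c p
  have e2 := LT_sum h2 hB hab (c * b) b (by simp [hb, hc]) hb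
  obtain ⟨e3, e4⟩ := LT_mul_pow hB hb hc hbc p
  rw [choose_two_zero h2, zero_mul] at e4
  have e5 : (c * b) ^ p - 1 = ((c * b) ^ p - c ^ p * b ^ p) + (c ^ p - 1) * b ^ p + (b ^ p - 1) := by
    noncomm_ring
  have e6 : (c * b) ^ p - 1 ∈ NN Bz p F := by
    rw [e5]
    exact Submodule.add_mem _ (Submodule.add_mem _ e3 (NN_mul_right Bz p hcp _)) hbp
  have e7 : LT Bz p ((c * b) ^ p - 1) = LT Bz p (c ^ p) + LT Bz p (b ^ p - 1) := by
    rw [e5, map_add, map_add, e4, LT_mul_right Bz p hcp, aug_pow, hb, one_pow, one_mul,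
      map_sub, LT_one, sub_zero, zero_add]
  have e8 : a * b ^ p = a + a * (b ^ p - 1) := by noncomm_ring
  have e9 : (c * b) ^ p * a = a + ((c * b) ^ p - 1) * a := by noncomm_ring
  have e10 := congrArg (LT Bz p) e1
  rw [map_add, e2, add_zero, e8, e9, map_add, map_add, LT_mul_left Bz p hB hbp,
    LT_mul_right Bz p e6, ha, one_mul, one_mul, e7] at e10
  have e11 : LV Bz p (b ^ p - 1) = fun i => (LP Bz b i) ^ p := by
    rw [map_sub, LV_pow, LV_one, sub_zero]
  rw [e11] at e10
  linear_combination -e10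

end key

section red
variable {n : ℕ} (B : Matrix (Fin n) (Fin n) (ℤ)) (p : ℕ) [hp : Fact p.Prime]

/-- the group modulo `p` -/
abbrev Gp := Heis (fun _ : Fin 1 => B.map (Int.cast : ℤ → ZMod p))

lemma bil_cast (v w : Fin n → ℤ) (l : Fin 1) :
    ((bil (fun _ : Fin 1 => B) v w l : ℤ) : ZMod p) =
      bil (fun _ : Fin 1 => B.map (Int.cast : ℤ → ZMod p)) (fun i => (v i : ZMod p))
        (fun i => (w i : ZMod p)) l := by
  simp [bil, dotProduct, mulVec, Matrix.map_apply]

/-- reduction modulo `p` -/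
def red : Gh B →* Gp B p where
  toFun g := ⟨fun i => (g.v i : ZMod p), fun l => (g.t l : ZMod p)⟩
  map_one' := by ext <;> simp
  map_mul' g h := by
    ext i
    · simp
    · simp [bil_cast]

@[simp] lemma red_v (g : Gh B) (i : Fin n) : (red B p g).v i = (g.v i : ZMod p) := rfl
@[simp] lemma red_t (g : Gh B) (i : Fin 1) : (red B p g).t i = (g.t i : ZMod p) := rfl

lemma red_surj : Function.Surjective (red B p) := by
  intro g
  refine ⟨⟨fun i => (g.v i).cast, fun i => (g.t i).cast⟩, ?_⟩
  ext i <;> simp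

/-- a section of the reduction -/
noncomputable def sec (g : Gp B p) : Gh B := Function.surjInv (red_surj B p) g

lemma red_sec (g : Gp B p) : red B p (sec B p g) = g := Function.surjInv_eq _ g

lemma Cg_of_red {g g' : Gh B} (h : red B p g = red B p g') :
    ∃ a c, Cg B p g g' a c := by
  have h1 : ∀ i, ∃ a : ℤ, g'.v i = g.v i + (p : ℤ) * a := by
    intro i
    have h2 : (red B p g).v i = (red B p g').v i := by rw [h]
    simp only [red_v] at h2
    rw [ZMod.intCast_eq_intCast_iff_dvd_sub] at h2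
    obtain ⟨a, ha⟩ := h2
    exact ⟨a, by linarith⟩
  have h3 : ∃ c : ℤ, g'.t 0 = g.t 0 + (p : ℤ) * c := by
    have h2 : (red B p g).t 0 = (red B p g').t 0 := by rw [h]
    simp only [red_t] at h2
    rw [ZMod.intCast_eq_intCast_iff_dvd_sub] at h2
    obtain ⟨a, ha⟩ := h2
    exact ⟨a, by linarith⟩
  choose a ha using h1
  obtain ⟨c, hc⟩ := h3
  exact ⟨a, c, ha, hc⟩

variable (F : Type*) [Field F]

/-- reduction of the group algebras -/
noncomputable def redA : MonoidAlgebra F (Gh B) →ₐ[F] MonoidAlgebra F (Gp B p) :=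
  mapDomainAlgHom F F (red B p)

/-- a linear section of the reduction -/
noncomputable def secA : MonoidAlgebra F (Gp B p) →ₗ[F] MonoidAlgebra F (Gh B) :=
  lin (fun g => single (sec B p g) 1)

variable {F}

@[simp] lemma redA_single (g : Gh B) (a : F) :
    redA B p F (single g a) = single (red B p g) a := by simp [redA]

@[simp] lemma secA_single (g : Gp B p) (a : F) :
    secA B p F (single g a) = single (sec B p g) a := by
  simp [secA]

lemma redA_secA (x : MonoidAlgebra F (Gp B p)) : redA B p F (secA B p F x) = x := by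
  induction x using MonoidAlgebra.induction_linear with
  | zero => simp
  | add x y hx hy => rw [map_add, map_add, hx, hy]
  | single g a => rw [secA_single, redA_single, red_sec]

lemma sub_secA_mem (x : MonoidAlgebra F (Gh B)) : x - secA B p F (redA B p F x) ∈ NN B p F := by
  induction x using MonoidAlgebra.induction_linear with
  | zero => simp
  | add x y hx hy =>
    rw [map_add, map_add, add_sub_add_comm]
    exact Submodule.add_mem _ hx hy
  | single g a =>
    rw [redA_single, secA_single]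
    have h := Cg_of_red B p (red_sec B p (red B p g))
    obtain ⟨c, d, h⟩ := h
    have : single g a - single (sec B p (red B p g)) a =
        a • (single g (1 : F) - single (sec B p (red B p g)) 1) := by
      simp [smul_sub]
    rw [this]
    exact Submodule.smul_mem _ _ (Submodule.subset_span ⟨_, _, _, _, h, rfl⟩)

lemma mem_NN_of_redA {x : MonoidAlgebra F (Gh B)} (h : redA B p F x = 0) : x ∈ NN B p F := by
  have := sub_secA_mem B p x
  rwa [h, map_zero, sub_zero] at this

lemma aug_redA (x : MonoidAlgebra F (Gh B)) : aug F _ (redA B p F x) = aug F _ x := by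
  induction x using MonoidAlgebra.induction_linear with
  | zero => simp
  | add x y hx hy => rw [map_add, map_add, map_add, hx, hy]
  | single g a => simp

/-- first coordinates on the group algebra modulo `p` -/
noncomputable def PP (F : Type*) [Field F] [Algebra (ZMod p) F] :
    MonoidAlgebra F (Gp B p) →ₗ[F] (Fin n → F) :=
  lin (fun g i => algebraMap (ZMod p) F (g.v i))

lemma PP_redA [Algebra (ZMod p) F] (x : MonoidAlgebra F (Gh B)) :
    PP B p F (redA B p F x) = LP B x := by
  induction x using MonoidAlgebra.induction_linear with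
  | zero => simp
  | add x y hx hy => rw [map_add, map_add, map_add, hx, hy]
  | single g a =>
    simp [PP, LP]
    rfl

end red

section Gam
variable {n : ℕ} {B : Matrix (Fin n) (Fin n) ℤ} {p : ℕ} [hp : Fact p.Prime]
  {F : Type*} [Field F] [CharP F p]

/-- the function `Γ` -/
noncomputable def Gam (c : MonoidAlgebra F (Gp B p)) : F := LT B p ((secA B p F c) ^ p)

lemma Gam_lift (h2 : p ≠ 2) (hB : AltF B F) (x : MonoidAlgebra F (Gh B)) (hx : aug F _ x = 1) :
    Gam (redA B p F x) = LT B p (x ^ p) := by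
  have h := sub_secA_mem B p x
  refine (LT_pow_sub h2 hB h hx ?_).symm
  rw [← aug_redA B p, redA_secA, aug_redA, hx]

lemma Gam_mul (h2 : p ≠ 2) (hB : AltF B F) {c d : MonoidAlgebra F (Gp B p)}
    (hc : aug F _ c = 1) (hd : aug F _ d = 1) (hcd : c * d = d * c) (hcp : c ^ p = 1)
    (hdp : d ^ p = 1) : Gam (c * d) = Gam c + Gam d := by
  obtain ⟨x, rfl⟩ : ∃ x, redA B p F x = c := ⟨_, redA_secA B p c⟩
  obtain ⟨y, rfl⟩ : ∃ y, redA B p F y = d := ⟨_, redA_secA B p d⟩
  rw [aug_redA] at hc hd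
  have h1 : y * x - x * y ∈ NN B p F := mem_NN_of_redA B p (by
    rw [map_sub, map_mul, map_mul, hcd, sub_self])
  have hxp : x ^ p - 1 ∈ NN B p F := mem_NN_of_redA B p (by
    rw [map_sub, map_pow, hcp, map_one, sub_self])
  have hyp : y ^ p - 1 ∈ NN B p F := mem_NN_of_redA B p (by
    rw [map_sub, map_pow, hdp, map_one, sub_self])
  obtain ⟨-, e4⟩ := LT_mul_pow hB hd hc h1 p
  rw [choose_two_zero h2, zero_mul, map_sub, sub_eq_zero] at e4
  rw [← map_mul, Gam_lift h2 hB _ (by simp [hc, hd]), Gam_lift h2 hB _ hc, Gam_lift h2 hB _ hd, e4]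
  have e5 : x ^ p * y ^ p = (x ^ p - 1) * y ^ p + y ^ p := by noncomm_ring
  rw [e5, map_add, LT_mul_right B p hxp, aug_pow, hd, one_pow, one_mul, map_sub, LT_one, sub_zero]

lemma Gam_comm (h2 : p ≠ 2) (hB : AltF B F) [Algebra (ZMod p) F]
    {a b c : MonoidAlgebra F (Gp B p)}
    (ha : aug F _ a = 1) (hb : aug F _ b = 1) (hc : aug F _ c = 1)
    (hab : a * b = c * b * a) (hbc : b * c = c * b) (hbp : b ^ p = 1) (hcp : c ^ p = 1) :
    Gam c = 2 * bF B F (PP B p F a) (fun i => (PP B p F b i) ^ p) := by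
  obtain ⟨a, rfl⟩ : ∃ x, redA B p F x = a := ⟨_, redA_secA B p a⟩
  obtain ⟨b, rfl⟩ : ∃ x, redA B p F x = b := ⟨_, redA_secA B p b⟩
  obtain ⟨c, rfl⟩ : ∃ x, redA B p F x = c := ⟨_, redA_secA B p c⟩
  rw [aug_redA] at ha hb hc
  rw [PP_redA, PP_redA, Gam_lift h2 hB _ hc]
  apply key h2 hB hb hc ha
  · exact mem_NN_of_redA B p (by simp only [map_sub, map_mul, hab, sub_self])
  · exact mem_NN_of_redA B p (by rw [map_sub, map_mul, map_mul, hbc, sub_self])
  · exact mem_NN_of_redA B p (by rw [map_sub, map_pow, hbp, map_one, sub_self])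
  · exact mem_NN_of_redA B p (by rw [map_sub, map_pow, hcp, map_one, sub_self])

end Gam

end Pool.Agent.R691.Mip
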