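import Mathlib

set_option autoImplicit false
set_option linter.unusedSectionVars false

/-! # Frobenius-stable subspaces of matrix spaces -/

namespace Pool.Agent.R691.Mip

open Matrix

/-- coordinatewise `p`-power -/
def fr (p : ℕ) {F : Type*} [Field F] {n m : ℕ} (x : Matrix (Fin n) (Fin m) F) :
    Matrix (Fin n) (Fin m) F := x.map (fun a => a ^ p)

/-- extension of scalars for matrices -/
def ex (p : ℕ) (F : Type*) [Field F] [Algebra (ZMod p) F] {n m : ℕ}
    (z : Matrix (Fin n) (Fin m) (ZMod p)) : Matrix (Fin n) (Fin m) F :=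
  z.map (algebraMap (ZMod p) F)

@[simp] lemma ex_apply {p : ℕ} {F : Type*} [Field F] [Algebra (ZMod p) F] {n m : ℕ}
    (z : Matrix (Fin n) (Fin m) (ZMod p)) (i : Fin n) (j : Fin m) :
    ex p F z i j = algebraMap (ZMod p) F (z i j) := rfl

@[simp] lemma fr_apply {p : ℕ} {F : Type*} [Field F] {n m : ℕ}
    (z : Matrix (Fin n) (Fin m) F) (i : Fin n) (j : Fin m) :
    fr p z i j = z i j ^ p := rfl

section
variable {p : ℕ} [hp : Fact p.Prime] {F : Type*} [Field F] [CharP F p] [Algebra (ZMod p) F]

lemma exists_of_pow_eq {x : F} (h : x ^ p = x) : ∃ z : ZMod p, algebraMap (ZMod p) F z = x := by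
  have h1 : x ∈ (⊥ : Subfield F) := (Subfield.mem_bot_iff_pow_eq_self F p).2 h
  rw [← ZMod.fieldRange_castHom_eq_bot p] at h1
  obtain ⟨z, hz⟩ := h1
  refine ⟨z, ?_⟩
  rw [← hz]
  exact congrFun (congrArg DFunLike.coe (Subsingleton.elim (algebraMap (ZMod p) F)
    (ZMod.castHom (dvd_refl p) F))) z

lemma fr_ex {n m : ℕ} (z : Matrix (Fin n) (Fin m) (ZMod p)) : fr p (ex p F z) = ex p F z := by
  ext i j
  rw [fr_apply, ex_apply, ← map_pow, ZMod.pow_card]

lemma fr_mul {n m k : ℕ} (x : Matrix (Fin n) (Fin m) F) (y : Matrix (Fin m) (Fin k) F) :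
    fr p (x * y) = fr p x * fr p y := by
  ext i j
  simp only [fr_apply, mul_apply]
  rw [sum_pow_char]
  simp [mul_pow]

theorem rat_span {n : ℕ} (X : Submodule F (Matrix (Fin n) (Fin n) F))
    (hX : ∀ x ∈ X, fr p x ∈ X) (N : ℕ) :
    ∀ (s : Finset (Fin n × Fin n)), s.card ≤ N → ∀ x ∈ X, (∀ i j, (i, j) ∉ s → x i j = 0) →
      x ∈ Submodule.span F {y | y ∈ X ∧ (∀ i j, (i, j) ∉ s → y i j = 0) ∧
        ∃ z : Matrix (Fin n) (Fin n) (ZMod p), ex p F z = y} := by
  classical
  induction N with
  | zero =>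
    intro s hs x hx hs'
    have hs0 : s = ∅ := Finset.card_eq_zero.1 (Nat.le_zero.1 hs)
    have : x = 0 := by
      ext i j
      exact hs' i j (by simp [hs0])
    rw [this]
    exact Submodule.zero_mem _
  | succ N ih =>
    intro s hs x hx hs'
    by_cases h0 : x = 0
    · rw [h0]; exact Submodule.zero_mem _
    obtain ⟨a, b, hab⟩ : ∃ a b, x a b ≠ 0 := by
      by_contra hcon
      push Not at hcon
      exact h0 (by ext i j; exact hcon i j)
    have habs : (a, b) ∈ s := by
      by_contra hcon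
      exact hab (hs' a b hcon)
    have hmono : ∀ e ∈ s, Submodule.span F {y | y ∈ X ∧ (∀ i j, (i, j) ∉ s.erase e → y i j = 0) ∧
        ∃ z : Matrix (Fin n) (Fin n) (ZMod p), ex p F z = y} ≤
        Submodule.span F {y | y ∈ X ∧ (∀ i j, (i, j) ∉ s → y i j = 0) ∧
        ∃ z : Matrix (Fin n) (Fin n) (ZMod p), ex p F z = y} := by
      intro e _
      apply Submodule.span_mono
      rintro y ⟨hy1, hy2, hy3⟩
      exact ⟨hy1, fun i j hij => hy2 i j (fun h => hij (Finset.mem_of_mem_erase h)), hy3⟩
    have hcard : ∀ e ∈ s, (s.erase e).card ≤ N := by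
      intro e he
      rw [Finset.card_erase_of_mem he]
      omega
    -- normalise
    set x' := (x a b)⁻¹ • x with hx'
    have hx'X : x' ∈ X := Submodule.smul_mem _ _ hx
    have hx'1 : x' a b = 1 := by simp [hx', hab]
    have hxx' : x = x a b • x' := by
      rw [hx', smul_smul, mul_inv_cancel₀ hab, one_smul]
    rw [hxx']
    apply Submodule.smul_mem
    have hx's : ∀ i j, (i, j) ∉ s → x' i j = 0 := by
      intro i j hij
      simp [hx', hs' i j hij]
    have hyX : fr p x' - x' ∈ X := Submodule.sub_mem _ (hX _ hx'X) hx'X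
    have hys : ∀ i j, (i, j) ∉ s.erase (a, b) → (fr p x' - x') i j = 0 := by
      intro i j hij
      by_cases hij2 : (i, j) = (a, b)
      · obtain ⟨rfl, rfl⟩ := Prod.mk.inj hij2
        simp [hx'1]
      · have : (i, j) ∉ s := fun h => hij (Finset.mem_erase.2 ⟨hij2, h⟩)
        simp [hx's i j this, hp.out.ne_zero]
    have hy := ih (s.erase (a, b)) (hcard _ habs) _ hyX hys
    by_cases hz : fr p x' - x' = 0
    · apply Submodule.subset_span
      refine ⟨hx'X, hx's, ?_⟩
      have : ∀ i j, ∃ z : ZMod p, algebraMap (ZMod p) F z = x' i j := by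
        intro i j
        apply exists_of_pow_eq
        have := congrFun (congrFun (sub_eq_zero.1 hz) i) j
        simpa using this
      choose z hz' using this
      exact ⟨Matrix.of z, by ext i j; simp [hz']⟩
    · obtain ⟨r, ⟨hr1, hr2, z, rfl⟩, hr0⟩ : ∃ r ∈ {y | y ∈ X ∧
          (∀ i j, (i, j) ∉ s.erase (a, b) → y i j = 0) ∧
          ∃ z : Matrix (Fin n) (Fin n) (ZMod p), ex p F z = y}, r ≠ 0 := by
        by_contra hcon
        push Not at hcon
        apply hz
        have h2 : Submodule.span F {y | y ∈ X ∧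
            (∀ i j, (i, j) ∉ s.erase (a, b) → y i j = 0) ∧
            ∃ z : Matrix (Fin n) (Fin n) (ZMod p), ex p F z = y} ≤ ⊥ := by
          rw [Submodule.span_le]
          intro y hy
          simp [hcon y hy]
        exact (Submodule.mem_bot F).1 (h2 hy)
      obtain ⟨c, d, hcd⟩ : ∃ c d, (ex p F z) c d ≠ 0 := by
        by_contra hcon
        push Not at hcon
        exact hr0 (by ext i j; exact hcon i j)
      have hcds : (c, d) ∈ s := by
        by_contra hcon
        exact hcd (hr2 c d (fun h => hcon (Finset.mem_of_mem_erase h)))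
      have hrs : ∀ i j, (i, j) ∉ s → (ex p F z) i j = 0 :=
        fun i j hij => hr2 i j (fun h => hij (Finset.mem_of_mem_erase h))
      have e1 : x' = (x' - (x' c d / (ex p F z) c d) • ex p F z) +
          (x' c d / (ex p F z) c d) • ex p F z := by
        rw [sub_add_cancel]
      rw [e1]
      apply Submodule.add_mem
      · apply hmono (c, d) hcds
        apply ih _ (hcard _ hcds)
        · exact Submodule.sub_mem _ hx'X (Submodule.smul_mem _ _ hr1)
        · intro i j hij
          by_cases hij2 : (i, j) = (c, d)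
          · obtain ⟨rfl, rfl⟩ := Prod.mk.inj hij2
            simp only [Matrix.sub_apply, Matrix.smul_apply, smul_eq_mul]
            rw [div_mul_cancel₀ _ hcd, sub_self]
          · have h3 : (i, j) ∉ s := fun h => hij (Finset.mem_erase.2 ⟨hij2, h⟩)
            simp only [Matrix.sub_apply, Matrix.smul_apply, smul_eq_mul]
            rw [hx's i j h3, hrs i j h3, mul_zero, sub_zero]
      · apply Submodule.smul_mem
        exact Submodule.subset_span ⟨hr1, hrs, z, rfl⟩

theorem rat_span' {n : ℕ} (X : Submodule F (Matrix (Fin n) (Fin n) F))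
    (hX : ∀ x ∈ X, fr p x ∈ X) (x : Matrix (Fin n) (Fin n) F) (hx : x ∈ X) :
    x ∈ Submodule.span F {y | y ∈ X ∧ ∃ z : Matrix (Fin n) (Fin n) (ZMod p), ex p F z = y} := by
  have h := rat_span X hX _ Finset.univ le_rfl x hx (fun i j hij => absurd (Finset.mem_univ _) hij)
  refine Submodule.span_mono ?_ h
  rintro y ⟨hy1, -, hy2⟩
  exact ⟨hy1, hy2⟩

end

end Pool.Agent.R691.Mip
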