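import Mathlib
import Pool.Agent.R691.Mip.Rat
import Pool.Agent.R691.Mip.Canc

set_option autoImplicit false
set_option linter.unusedSectionVars false

/-! # A Lang type statement for Frobenius-stable matrix algebras -/

namespace Pool.Agent.R691.Mip

open Matrix

section ex
variable {p : ℕ} [hp : Fact p.Prime] {F : Type*} [Field F] [Algebra (ZMod p) F]
  {n : ℕ}

lemma ex_add (x y : Matrix (Fin n) (Fin n) (ZMod p)) : ex p F (x + y) = ex p F x + ex p F y := by
  ext i j; simp

lemma ex_smul (c : ZMod p) (x : Matrix (Fin n) (Fin n) (ZMod p)) :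
    ex p F (c • x) = algebraMap (ZMod p) F c • ex p F x := by
  ext i j; simp

lemma ex_mul (x y : Matrix (Fin n) (Fin n) (ZMod p)) : ex p F (x * y) = ex p F x * ex p F y := by
  ext i j; simp [mul_apply]

@[simp] lemma ex_zero : ex p F (0 : Matrix (Fin n) (Fin n) (ZMod p)) = 0 := by
  ext i j; simp

@[simp] lemma ex_one : ex p F (1 : Matrix (Fin n) (Fin n) (ZMod p)) = 1 := by
  ext i j; by_cases h : i = j <;> simp [one_apply, h]

lemma ex_sum {ι : Type*} (s : Finset ι) (f : ι → Matrix (Fin n) (Fin n) (ZMod p)) :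
    ex p F (∑ i ∈ s, f i) = ∑ i ∈ s, ex p F (f i) := by
  classical
  induction s using Finset.induction_on with
  | empty => simp
  | insert a s ha ih => rw [Finset.sum_insert ha, Finset.sum_insert ha, ex_add, ih]

lemma linInd_ex {ι : Type*} [Fintype ι] (b : ι → Matrix (Fin n) (Fin n) (ZMod p))
    (hb : LinearIndependent (ZMod p) b) : LinearIndependent F (fun i => ex p F (b i)) := by
  rw [Fintype.linearIndependent_iff]
  intro g hg i
  rw [← Module.forall_dual_apply_eq_zero_iff (ZMod p)]
  intro τ
  have h1 : ∑ i, τ (g i) • b i = 0 := by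
    ext j k
    have h2 := congrFun (congrFun hg j) k
    have h3 := congrArg τ h2
    simp only [Matrix.sum_apply, Matrix.smul_apply, ex_apply, smul_eq_mul, map_sum,
      Matrix.zero_apply, map_zero] at h3 ⊢
    rw [← h3]
    refine Finset.sum_congr rfl fun i _ => ?_
    rw [mul_comm (g i), ← Algebra.smul_def, map_smul, smul_eq_mul, mul_comm]
  exact (Fintype.linearIndependent_iff.1 hb _ h1) i

lemma finrank_ex (X0 : Submodule (ZMod p) (Matrix (Fin n) (Fin n) (ZMod p)))
    (X : Submodule F (Matrix (Fin n) (Fin n) F)) (h1 : ∀ z ∈ X0, ex p F z ∈ X)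
    (h2 : ∀ x ∈ X, x ∈ Submodule.span F {y | ∃ z ∈ X0, ex p F z = y}) :
    Module.finrank (ZMod p) X0 = Module.finrank F X := by
  let b := Module.finBasis (ZMod p) X0
  have hb : LinearIndependent (ZMod p) (fun i => (b i : Matrix (Fin n) (Fin n) (ZMod p))) :=
    b.linearIndependent.map' X0.subtype (Submodule.ker_subtype _)
  have h3 := linInd_ex (F := F) _ hb
  have h4 := finrank_span_eq_card h3
  rw [Fintype.card_fin] at h4
  have h5 : Submodule.span F (Set.range fun i => ex p F (b i : Matrix (Fin n) (Fin n) (ZMod p)))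
      = X := by
    apply le_antisymm
    · rw [Submodule.span_le]
      rintro _ ⟨i, rfl⟩
      exact h1 _ (b i).2
    · intro x hx
      refine Submodule.span_le.2 ?_ (h2 x hx)
      rintro _ ⟨z, hz, rfl⟩
      have h6 := b.sum_repr ⟨z, hz⟩
      have h7 : ∑ i, (b.repr ⟨z, hz⟩ i) • (b i : Matrix (Fin n) (Fin n) (ZMod p)) = z := by
        have := congrArg Subtype.val h6
        rw [AddSubmonoidClass.coe_finsetSum] at this
        exact this
      have h8 : ex p F z = ∑ i, algebraMap (ZMod p) F (b.repr ⟨z, hz⟩ i) •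
          ex p F (b i : Matrix (Fin n) (Fin n) (ZMod p)) := by
        conv_lhs => rw [← h7]
        rw [ex_sum]
        refine Finset.sum_congr rfl fun i _ => ?_
        rw [← ex_smul]
      rw [SetLike.mem_coe, h8]
      apply Submodule.sum_mem
      intro i _
      apply Submodule.smul_mem
      exact Submodule.subset_span ⟨i, rfl⟩
  rw [h5] at h4
  exact h4.symm

end ex

section poly
variable {p : ℕ} [hp : Fact p.Prime]

lemma exists_point {r : ℕ} (f : MvPolynomial (Fin r) (ZMod p)) (hf : f ≠ 0) :
    ∃ N : ℕ, N ≠ 0 ∧ ∃ y : Fin r → GaloisField p N, MvPolynomial.aeval y f ≠ 0 := by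
  classical
  refine ⟨f.totalDegree + 1, by omega, ?_⟩
  set N := f.totalDegree + 1 with hN
  have : Fintype (GaloisField p N) := Fintype.ofFinite _
  by_contra hcon
  push Not at hcon
  apply hf
  have hinj : Function.Injective (algebraMap (ZMod p) (GaloisField p N)) :=
    (algebraMap (ZMod p) (GaloisField p N)).injective
  apply MvPolynomial.map_injective _ hinj
  rw [map_zero]
  apply MvPolynomial.eq_zero_of_eval_zero_at_prod_finset _ (fun _ => Finset.univ)
  · intro i
    have h1 : (MvPolynomial.map (algebraMap (ZMod p) (GaloisField p N)) f).degreeOf i ≤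
        f.degreeOf i := by
      rw [MvPolynomial.degreeOf_eq_sup, MvPolynomial.degreeOf_eq_sup]
      exact Finset.sup_mono (MvPolynomial.support_map_subset _ _)
    have h2 := MvPolynomial.degreeOf_le_totalDegree f i
    have h3 : Nat.card (GaloisField p N) = p ^ N := GaloisField.card p N (by omega)
    rw [Nat.card_eq_fintype_card] at h3
    rw [Finset.card_univ, h3]
    have h4 : N < p ^ N := Nat.lt_pow_self hp.out.one_lt
    omega
  · intro x _
    rw [MvPolynomial.eval_map, ← MvPolynomial.aeval_def]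
    exact hcon x

end poly

section lang
variable {p : ℕ} [hp : Fact p.Prime] {n : ℕ}

/-- linear combination of rational matrices -/
lemma det_aeval {L : Type*} [Field L] [Algebra (ZMod p) L] {r : ℕ}
    (b : Fin r → Matrix (Fin n) (Fin n) (ZMod p)) (y : Fin r → L) :
    MvPolynomial.aeval y (Matrix.det (Matrix.of fun i j =>
      ∑ k, MvPolynomial.X k * MvPolynomial.C (b k i j)) : MvPolynomial (Fin r) (ZMod p)) =
      Matrix.det (∑ k, y k • ex p L (b k)) := by
  rw [AlgHom.map_det]
  congr 1
  ext i j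
  simp [Matrix.sum_apply]

/-- The key existence statement over a finite extension. -/
theorem equiv_pow (S : Subalgebra (ZMod p) (Matrix (Fin n) (Fin n) (ZMod p)))
    (T : Submodule S (Matrix (Fin n) (Fin n) (ZMod p)))
    (hcard : Nat.card S = Nat.card T) {r : ℕ} (b : Fin r → T)
    {L : Type} [Field L] [Algebra (ZMod p) L] [Module.Finite (ZMod p) L]
    (y : Fin r → L)
    (hy : Matrix.det (∑ k, y k • ex p L (b k : Matrix (Fin n) (Fin n) (ZMod p))) ≠ 0) :
    Nonempty (S ≃ₗ[S] T) := by
  classical
  set k := Module.finrank (ZMod p) L with hk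
  let e : Module.Basis (Fin k) (ZMod p) L := Module.finBasis (ZMod p) L
  have hk0 : k ≠ 0 := (Module.finrank_pos (R := ZMod p) (M := L)).ne'
  have hTK : ∀ (c : ZMod p) (t : Matrix (Fin n) (Fin n) (ZMod p)), t ∈ T → c • t ∈ T := by
    intro c t ht
    have := T.smul_mem (algebraMap (ZMod p) S c) ht
    have h2 : (algebraMap (ZMod p) S c) • t = c • t := by
      rw [Algebra.smul_def c t]
      rfl
    rwa [h2] at this
  let t : Fin k → Fin k → T := fun i l =>
    ⟨∑ j, (e.repr (e i * y j) l) • (b j : Matrix (Fin n) (Fin n) (ZMod p)),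
      Submodule.sum_mem _ fun j _ => hTK _ _ (b j).2⟩
  let Φ : (Fin k → S) →ₗ[S] (Fin k → T) :=
    { toFun := fun a l => ∑ i, a i • t i l
      map_add' := fun a a' => by
        funext l
        simp [add_smul, Finset.sum_add_distrib]
      map_smul' := fun c a => by
        funext l
        simp [mul_smul, Finset.smul_sum] }
  have hinj : Function.Injective Φ := by
    rw [injective_iff_map_eq_zero]
    intro a ha
    set A : Matrix (Fin n) (Fin n) L :=
      ∑ i, e i • ex p L (a i : Matrix (Fin n) (Fin n) (ZMod p)) with hA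
    set M' : Matrix (Fin n) (Fin n) L :=
      ∑ k, y k • ex p L (b k : Matrix (Fin n) (Fin n) (ZMod p)) with hM'
    have h1 : ∀ l, ∑ i, (a i : Matrix (Fin n) (Fin n) (ZMod p)) *
        (∑ j, (e.repr (e i * y j) l) • (b j : Matrix (Fin n) (Fin n) (ZMod p))) = 0 := by
      intro l
      have h2 := congrArg Subtype.val (congrFun ha l)
      simp only [Pi.zero_apply, ZeroMemClass.coe_zero] at h2
      rw [← h2]
      show _ = ((∑ i, a i • t i l : T) : Matrix (Fin n) (Fin n) (ZMod p))
      rw [AddSubmonoidClass.coe_finsetSum]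
      rfl
    have h3 : A * M' = 0 := by
      have h4 : A * M' = ∑ l, e l • ex p L (∑ i, (a i : Matrix (Fin n) (Fin n) (ZMod p)) *
        (∑ j, (e.repr (e i * y j) l) • (b j : Matrix (Fin n) (Fin n) (ZMod p)))) := by
        have h5 : ∀ l, e l • ex p L (∑ i, (a i : Matrix (Fin n) (Fin n) (ZMod p)) *
            (∑ j, (e.repr (e i * y j) l) • (b j : Matrix (Fin n) (Fin n) (ZMod p)))) =
            ∑ i, ∑ j, (algebraMap (ZMod p) L (e.repr (e i * y j) l) * e l) •
              (ex p L (a i : Matrix (Fin n) (Fin n) (ZMod p)) *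
              ex p L (b j : Matrix (Fin n) (Fin n) (ZMod p))) := by
          intro l
          rw [ex_sum, Finset.smul_sum]
          refine Finset.sum_congr rfl fun i _ => ?_
          rw [ex_mul, ex_sum, Finset.mul_sum, Finset.smul_sum]
          refine Finset.sum_congr rfl fun j _ => ?_
          rw [ex_smul, Matrix.mul_smul, smul_smul, mul_comm]
        rw [Finset.sum_congr rfl fun l _ => h5 l, Finset.sum_comm]
        rw [hA, hM', Finset.sum_mul]
        refine Finset.sum_congr rfl fun i _ => ?_
        rw [Finset.mul_sum, Finset.sum_comm]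
        refine Finset.sum_congr rfl fun j _ => ?_
        rw [← Finset.sum_smul, Matrix.smul_mul, Matrix.mul_smul, smul_smul]
        congr 1
        conv_lhs => rw [← e.sum_repr (e i * y j)]
        refine Finset.sum_congr rfl fun l _ => ?_
        rw [Algebra.smul_def]
      rw [h4]
      refine Finset.sum_eq_zero fun l _ => ?_
      rw [h1 l, ex_zero, smul_zero]
    have h6 : A = 0 := by
      have h7 : IsUnit M'.det := isUnit_iff_ne_zero.2 hy
      have h8 : A * M' * M'⁻¹ = A := Matrix.mul_nonsing_inv_cancel_right M' A h7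
      rw [← h8, h3, Matrix.zero_mul]
    funext i
    apply Subtype.ext
    ext u v
    have h9 := congrFun (congrFun h6 u) v
    rw [hA] at h9
    simp only [Matrix.sum_apply, Matrix.smul_apply, ex_apply, smul_eq_mul,
      Matrix.zero_apply] at h9
    have h10 : ∑ i, ((a i : Matrix (Fin n) (Fin n) (ZMod p)) u v) • e i = 0 := by
      rw [← h9]
      refine Finset.sum_congr rfl fun i _ => ?_
      rw [Algebra.smul_def, mul_comm]
    exact Fintype.linearIndependent_iff.1 e.linearIndependent _ h10 i
  have hbij : Function.Bijective Φ := by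
    have := Fintype.ofFinite (Fin k → S)
    have := Fintype.ofFinite (Fin k → T)
    rw [Fintype.bijective_iff_injective_and_card]
    refine ⟨hinj, ?_⟩
    rw [← Nat.card_eq_fintype_card, ← Nat.card_eq_fintype_card, Nat.card_fun, Nat.card_fun, hcard]
  exact cancel (S := S) (X := S) (Y := T) hk0 (LinearEquiv.ofBijective Φ hbij)

theorem lang {F : Type*} [Field F] [CharP F p] [Algebra (ZMod p) F]
    (SS : Subalgebra F (Matrix (Fin n) (Fin n) F))
    (hS : ∀ x ∈ SS, fr p x ∈ SS)
    (M : Matrix (Fin n) (Fin n) F) (hM : IsUnit M.det) (s0 : Matrix (Fin n) (Fin n) F)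
    (hs0 : s0 ∈ SS) (hsM : fr p M = s0 * M) :
    ∃ A ∈ SS, ∃ α : Matrix (Fin n) (Fin n) (ZMod p), M = A * ex p F α := by
  classical
  let S : Subalgebra (ZMod p) (Matrix (Fin n) (Fin n) (ZMod p)) :=
    { carrier := {a | ex p F a ∈ SS}
      mul_mem' := fun {a b} ha hb => by
        show ex p F (a * b) ∈ SS
        rw [ex_mul]; exact SS.mul_mem ha hb
      add_mem' := fun {a b} ha hb => by
        show ex p F (a + b) ∈ SS
        rw [ex_add]; exact SS.add_mem ha hb
      algebraMap_mem' := fun c => by
        show ex p F (algebraMap (ZMod p) _ c) ∈ SS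
        rw [Algebra.algebraMap_eq_smul_one, ex_smul, ex_one]
        exact SS.smul_mem SS.one_mem _ }
  have hSmem : ∀ a, a ∈ S ↔ ex p F a ∈ SS := fun a => Iff.rfl
  let TF : Submodule F (Matrix (Fin n) (Fin n) F) :=
    (Subalgebra.toSubmodule SS).map (LinearMap.mulRight F M)
  have hTF : ∀ x, x ∈ TF ↔ ∃ s ∈ SS, s * M = x := by
    intro x
    simp [TF, Submodule.mem_map]
  have hTFfr : ∀ x ∈ TF, fr p x ∈ TF := by
    intro x hx
    obtain ⟨s, hs, rfl⟩ := (hTF x).1 hx
    rw [fr_mul, hsM, ← mul_assoc]
    exact (hTF _).2 ⟨fr p s * s0, SS.mul_mem (hS s hs) hs0, rfl⟩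
  let T0 : Submodule (ZMod p) (Matrix (Fin n) (Fin n) (ZMod p)) :=
    { carrier := {a | ex p F a ∈ TF}
      add_mem' := fun {a b} ha hb => by
        show ex p F (a + b) ∈ TF
        rw [ex_add]; exact TF.add_mem ha hb
      zero_mem' := by
        show ex p F 0 ∈ TF
        rw [ex_zero]; exact TF.zero_mem
      smul_mem' := fun c a ha => by
        show ex p F (c • a) ∈ TF
        rw [ex_smul]; exact TF.smul_mem _ ha }
  let T : Submodule S (Matrix (Fin n) (Fin n) (ZMod p)) :=
    { carrier := {a | ex p F a ∈ TF}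
      add_mem' := fun {a b} ha hb => by
        show ex p F (a + b) ∈ TF
        rw [ex_add]; exact TF.add_mem ha hb
      zero_mem' := by
        show ex p F 0 ∈ TF
        rw [ex_zero]; exact TF.zero_mem
      smul_mem' := fun c a ha => by
        show ex p F (c.1 * a) ∈ TF
        rw [ex_mul]
        obtain ⟨s, hs, hs2⟩ := (hTF _).1 ha
        rw [← hs2, ← mul_assoc]
        exact (hTF _).2 ⟨_, SS.mul_mem c.2 hs, rfl⟩ }
  have hspanS : ∀ x ∈ Subalgebra.toSubmodule SS,
      x ∈ Submodule.span F {y | ∃ z ∈ Subalgebra.toSubmodule S, ex p F z = y} := by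
    intro x hx
    refine Submodule.span_mono ?_ (rat_span' (p := p) (Subalgebra.toSubmodule SS) hS x hx)
    rintro y ⟨hy, z, rfl⟩
    exact ⟨z, hy, rfl⟩
  have hspanT : ∀ x ∈ TF, x ∈ Submodule.span F {y | ∃ z ∈ T0, ex p F z = y} := by
    intro x hx
    refine Submodule.span_mono ?_ (rat_span' (p := p) TF hTFfr x hx)
    rintro y ⟨hy, z, rfl⟩
    exact ⟨z, hy, rfl⟩
  have hr1 : Module.finrank (ZMod p) (Subalgebra.toSubmodule S) =
      Module.finrank F (Subalgebra.toSubmodule SS) :=
    finrank_ex _ _ (fun z hz => hz) hspanS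
  have hr2 : Module.finrank (ZMod p) T0 = Module.finrank F TF :=
    finrank_ex _ _ (fun z hz => hz) hspanT
  have hinjM : Function.Injective (LinearMap.mulRight F M) := by
    intro x y hxy
    have hxy' : x * M = y * M := hxy
    have := congrArg (· * M⁻¹) hxy'
    simpa [Matrix.mul_nonsing_inv_cancel_right M _ hM] using this
  have hr3 : Module.finrank F (Subalgebra.toSubmodule SS) = Module.finrank F TF :=
    (Submodule.equivMapOfInjective _ hinjM _).finrank_eq
  have hcard : Nat.card S = Nat.card T := by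
    have h1 : Nat.card S = Nat.card (Subalgebra.toSubmodule S) := rfl
    have h2 : Nat.card T = Nat.card T0 := rfl
    rw [h1, h2, Module.natCard_eq_pow_finrank (K := ZMod p), Module.natCard_eq_pow_finrank
      (K := ZMod p) (V := T0), hr1, hr2, hr3]
  -- the polynomial
  let b := Module.finBasis (ZMod p) T0
  have hMT : M ∈ TF := (hTF _).2 ⟨1, SS.one_mem, one_mul M⟩
  obtain ⟨x, hx⟩ : ∃ x : Fin (Module.finrank (ZMod p) T0) → F,
      ∑ k, x k • ex p F (b k : Matrix (Fin n) (Fin n) (ZMod p)) = M := by
    have h1 := hspanT M hMT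
    have h2 : Submodule.span F {y | ∃ z ∈ T0, ex p F z = y} ≤
        Submodule.span F (Set.range fun i => ex p F (b i : Matrix (Fin n) (Fin n) (ZMod p))) := by
      rw [Submodule.span_le]
      rintro _ ⟨z, hz, rfl⟩
      have h6 := b.sum_repr ⟨z, hz⟩
      have h7 : ∑ i, (b.repr ⟨z, hz⟩ i) • (b i : Matrix (Fin n) (Fin n) (ZMod p)) = z := by
        have := congrArg Subtype.val h6
        rw [AddSubmonoidClass.coe_finsetSum] at this
        exact this
      have h8 : ex p F z = ∑ i, algebraMap (ZMod p) F (b.repr ⟨z, hz⟩ i) •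
          ex p F (b i : Matrix (Fin n) (Fin n) (ZMod p)) := by
        conv_lhs => rw [← h7]
        rw [ex_sum]
        refine Finset.sum_congr rfl fun i _ => ?_
        rw [← ex_smul]
      rw [SetLike.mem_coe, h8]
      apply Submodule.sum_mem
      intro i _
      apply Submodule.smul_mem
      exact Submodule.subset_span ⟨i, rfl⟩
    exact (Submodule.mem_span_range_iff_exists_fun F).1 (h2 h1)
  set f : MvPolynomial (Fin (Module.finrank (ZMod p) T0)) (ZMod p) :=
    Matrix.det (Matrix.of fun i j => ∑ k, MvPolynomial.X k *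
      MvPolynomial.C ((b k : Matrix (Fin n) (Fin n) (ZMod p)) i j)) with hf
  have hf0 : f ≠ 0 := by
    intro h0
    have h1 := det_aeval (L := F) (fun k => (b k : Matrix (Fin n) (Fin n) (ZMod p))) x
    rw [← hf, h0, map_zero, hx] at h1
    exact hM.ne_zero h1.symm
  obtain ⟨N, hN, y, hy⟩ := exists_point f hf0
  have hy2 : Matrix.det (∑ k, y k • ex p (GaloisField p N)
      (b k : Matrix (Fin n) (Fin n) (ZMod p))) ≠ 0 := by
    rw [← det_aeval (L := GaloisField p N)
      (fun k => (b k : Matrix (Fin n) (Fin n) (ZMod p))) y, ← hf]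
    exact hy
  have : Module.Finite (ZMod p) (GaloisField p N) := Module.Finite.of_finite
  obtain ⟨θ⟩ := equiv_pow S T hcard (fun k => (⟨(b k).1, (b k).2⟩ : T)) y hy2
  set α : Matrix (Fin n) (Fin n) (ZMod p) := (θ 1 : T).1 with hα
  have h1 : ∀ t ∈ T0, ∃ a ∈ S, t = a * α := by
    intro t ht
    obtain ⟨a, ha⟩ := θ.surjective ⟨t, ht⟩
    refine ⟨a.1, a.2, ?_⟩
    have h2 := map_smul θ a 1
    rw [smul_eq_mul, mul_one] at h2
    have h3 := congrArg Subtype.val ha
    rw [h2] at h3
    exact h3.symm
  have h2 : TF ≤ (Subalgebra.toSubmodule SS).map (LinearMap.mulRight F (ex p F α)) := by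
    intro t ht
    refine Submodule.span_le.2 ?_ (hspanT t ht)
    rintro _ ⟨z, hz, rfl⟩
    obtain ⟨a, ha, rfl⟩ := h1 z hz
    refine ⟨ex p F a, ha, ?_⟩
    rw [LinearMap.mulRight_apply, ex_mul]
  obtain ⟨A, hA, hA2⟩ := h2 hMT
  exact ⟨A, hA, α, hA2.symm⟩

end lang

end Pool.Agent.R691.Mip
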