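import Mathlib
import Pool.Agent.R691.Mip.Gam
import Pool.Agent.R691.Mip.Lang

set_option autoImplicit false
set_option linter.unusedSectionVars false

/-! # Coordinates on the group algebra of a group of class two -/

namespace Pool.Agent.R691.Mip

open Matrix MonoidAlgebra

/-- rational vectors -/
def vx {p : ℕ} (F : Type*) [Field F] [Algebra (ZMod p) F] {k : ℕ} (v : Fin k → ZMod p) :
    Fin k → F := fun i => algebraMap (ZMod p) F (v i)

section
variable {p : ℕ} {n m : ℕ} (B : Fin m → Matrix (Fin n) (Fin n) (ZMod p))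
  (F : Type*) [Field F] [Algebra (ZMod p) F]

/-- the matrices over `F` -/
def BF : Fin m → Matrix (Fin n) (Fin n) F := fun l => ex p F (B l)

lemma vx_add {k : ℕ} (v w : Fin k → ZMod p) : vx F (v + w) = vx F v + vx F w := by
  funext i; simp [vx]

lemma vx_neg {k : ℕ} (v : Fin k → ZMod p) : vx F (-v) = - vx F v := by
  funext i; simp [vx]

@[simp] lemma vx_zero {k : ℕ} : vx F (0 : Fin k → ZMod p) = 0 := by
  funext i; simp [vx]

lemma vx_smul {k : ℕ} (c : ZMod p) (v : Fin k → ZMod p) :
    vx F (c • v) = c • vx F v := by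
  funext i; simp [vx, Algebra.smul_def]

lemma bil_vx (v w : Fin n → ZMod p) : bil (BF B F) (vx F v) (vx F w) = vx F (bil B v w) := by
  funext l
  simp [bil, vx, BF, dotProduct, mulVec]

/-- first coordinates -/
noncomputable def cP : MonoidAlgebra F (Heis B) →ₗ[F] (Fin n → F) := lin (fun g => vx F g.v)
/-- second coordinates -/
noncomputable def cT : MonoidAlgebra F (Heis B) →ₗ[F] (Fin m → F) := lin (fun g => vx F g.t)

variable {B F}

@[simp] lemma cP_single (g : Heis B) (a : F) : cP B F (single g a) = a • vx F g.v := by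
  simp [cP]
@[simp] lemma cT_single (g : Heis B) (a : F) : cT B F (single g a) = a • vx F g.t := by
  simp [cT]

lemma cP_mul (x y : MonoidAlgebra F (Heis B)) :
    cP B F (x * y) = aug F _ y • cP B F x + aug F _ x • cP B F y :=
  lin_mul_of_add _ (fun g h => by rw [Heis.mul_v, vx_add]) x y

lemma cT_mul (x y : MonoidAlgebra F (Heis B)) :
    cT B F (x * y) = aug F _ y • cT B F x + aug F _ x • cT B F y +
      bil (BF B F) (cP B F x) (cP B F y) := by
  induction x using MonoidAlgebra.induction_linear with
  | zero => simp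
  | add x x' hx hx' =>
    rw [add_mul, map_add, map_add, map_add, map_add, hx, hx', smul_add, add_smul, bil_add_left]
    abel
  | single g a =>
    induction y using MonoidAlgebra.induction_linear with
    | zero => simp
    | add y y' hy hy' =>
      rw [mul_add, map_add, map_add, map_add, map_add, hy, hy', smul_add, add_smul,
        bil_add_right]
      abel
    | single h b =>
      simp only [single_mul_single, cT_single, cP_single, aug_single, Heis.mul_t, vx_add,
        bil_smul_left, bil_smul_right, bil_vx, smul_add, smul_smul]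
      rw [mul_comm b a]

end

section push
variable {p : ℕ} [hp : Fact p.Prime] {n m : ℕ} (B : Fin m → Matrix (Fin n) (Fin n) (ZMod p))
  (F : Type*) [Field F] [Algebra (ZMod p) F]

/-- an integral lift -/
def Bz (l : Fin m) : Matrix (Fin n) (Fin n) ℤ := (B l).map (fun a => ((a.val : ℕ) : ℤ))

lemma Bz_map (l : Fin m) : (Bz B l).map (Int.cast : ℤ → ZMod p) = B l := by
  ext i j
  simp [Bz]

lemma Bz_mapF (l : Fin m) : (Bz B l).map (Int.cast : ℤ → F) = BF B F l := by
  ext i j
  change (((B l i j).val : ℤ) : F) = algebraMap (ZMod p) F (B l i j)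
  rw [Int.cast_natCast, ← map_natCast (algebraMap (ZMod p) F), ZMod.natCast_zmod_val]

/-- one coordinate -/
def pl (l : Fin m) : Heis B →* Gp (Bz B l) p where
  toFun g := ⟨g.v, fun _ => g.t l⟩
  map_one' := by ext <;> simp
  map_mul' g h := by
    ext i
    · simp
    · simp [bil, Bz_map]

variable {F}

lemma bF_Bz (l : Fin m) (v w : Fin n → F) : bF (Bz B l) F v w = bil (BF B F) v w l := by
  rw [bF, Bz_mapF]; rfl

/-- the push-forward -/
noncomputable def pA (F : Type*) [Field F] (l : Fin m) :
    MonoidAlgebra F (Heis B) →ₐ[F] MonoidAlgebra F (Gp (Bz B l) p) :=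
  mapDomainAlgHom F F (pl B l)

@[simp] lemma pA_single (l : Fin m) (g : Heis B) (a : F) :
    pA B F l (single g a) = single (pl B l g) a := by simp [pA]

lemma aug_pA (l : Fin m) (x : MonoidAlgebra F (Heis B)) : aug F _ (pA B F l x) = aug F _ x := by
  induction x using MonoidAlgebra.induction_linear with
  | zero => simp
  | add x y hx hy => rw [map_add, map_add, map_add, hx, hy]
  | single g a => simp

lemma PP_pA (l : Fin m) (x : MonoidAlgebra F (Heis B)) :
    PP (Bz B l) p F (pA B F l x) = cP B F x := by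
  induction x using MonoidAlgebra.induction_linear with
  | zero => simp
  | add x y hx hy => rw [map_add, map_add, map_add, hx, hy]
  | single g a =>
    simp [PP]
    rfl

variable [CharP F p]

/-- the vector valued function `Γ` -/
noncomputable def GG (x : MonoidAlgebra F (Heis B)) : Fin m → F := fun l => Gam (pA B F l x)

variable {B}

lemma GG_mul (h2 : p ≠ 2) (hB : ∀ v w, bil (BF B F) v w = - bil (BF B F) w v)
    {c d : MonoidAlgebra F (Heis B)}
    (hc : aug F _ c = 1) (hd : aug F _ d = 1) (hcd : c * d = d * c) (hcp : c ^ p = 1)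
    (hdp : d ^ p = 1) : GG B (c * d) = GG B c + GG B d := by
  funext l
  have hAlt : AltF (Bz B l) F := fun v w => by
    rw [bF_Bz, bF_Bz, hB]; rfl
  change Gam (pA B F l (c * d)) = Gam (pA B F l c) + Gam (pA B F l d)
  rw [map_mul]
  apply Gam_mul h2 hAlt
  · rw [aug_pA, hc]
  · rw [aug_pA, hd]
  · rw [← map_mul, hcd, map_mul]
  · rw [← map_pow, hcp, map_one]
  · rw [← map_pow, hdp, map_one]

lemma GG_comm (h2 : p ≠ 2) (hB : ∀ v w, bil (BF B F) v w = - bil (BF B F) w v)
    {a b c : MonoidAlgebra F (Heis B)}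
    (ha : aug F _ a = 1) (hb : aug F _ b = 1) (hc : aug F _ c = 1)
    (hab : a * b = c * b * a) (hbc : b * c = c * b) (hbp : b ^ p = 1) (hcp : c ^ p = 1) :
    GG B c = (2 : F) • bil (BF B F) (cP B F a) (fun i => (cP B F b i) ^ p) := by
  funext l
  have hAlt : AltF (Bz B l) F := fun v w => by
    rw [bF_Bz, bF_Bz, hB]; rfl
  change Gam (pA B F l c) = 2 * bil (BF B F) (cP B F a) (fun i => (cP B F b i) ^ p) l
  rw [Gam_comm (a := pA B F l a) (b := pA B F l b) h2 hAlt, bF_Bz, PP_pA, PP_pA]
  · rw [aug_pA, ha]
  · rw [aug_pA, hb]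
  · rw [aug_pA, hc]
  · rw [← map_mul, hab, map_mul, map_mul]
  · rw [← map_mul, hbc, map_mul]
  · rw [← map_pow, hbp, map_one]
  · rw [← map_pow, hcp, map_one]

end push

end Pool.Agent.R691.Mip
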