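import Mathlib
import Pool.Agent.R691.Mip.Coord

set_option autoImplicit false
set_option linter.unusedSectionVars false

/-! # Finite forms of vector spaces -/

namespace Pool.Agent.R691.Mip

open Matrix

section
variable {p : ℕ} [hp : Fact p.Prime] {F : Type*} [Field F] [Algebra (ZMod p) F] {N : ℕ}

lemma vx_injective : Function.Injective (vx F : (Fin N → ZMod p) → (Fin N → F)) := by
  intro v w h
  funext i
  exact (algebraMap (ZMod p) F).injective (congrFun h i)

lemma span_basis {d : ℕ} (X : Submodule (ZMod p) (Fin N → F))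
    (hX : Submodule.span F (X : Set (Fin N → F)) = ⊤) (b : Module.Basis (Fin d) (ZMod p) X) :
    Submodule.span F (Set.range fun i => (b i : Fin N → F)) = ⊤ := by
  rw [eq_top_iff, ← hX, Submodule.span_le]
  intro x hx
  have h := b.sum_repr ⟨x, hx⟩
  have h7 : ∑ i, (b.repr ⟨x, hx⟩ i) • (b i : Fin N → F) = x := by
    have := congrArg Subtype.val h
    rw [AddSubmonoidClass.coe_finsetSum] at this
    exact this
  rw [SetLike.mem_coe, ← h7]
  apply Submodule.sum_mem
  intro i _
  rw [← algebraMap_smul F]
  apply Submodule.smul_mem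
  exact Submodule.subset_span ⟨i, rfl⟩

lemma form_card (X : Submodule (ZMod p) (Fin N → F)) [Finite X]
    (hX : Submodule.span F (X : Set (Fin N → F)) = ⊤) : p ^ N ≤ Nat.card X := by
  have hf : Module.Finite (ZMod p) X := Module.Finite.of_finite
  have h1 := span_basis X hX (Module.finBasis (ZMod p) X)
  have h2 := finrank_range_le_card (R := F) (fun i => (Module.finBasis (ZMod p) X i : Fin N → F))
  rw [Set.finrank, h1, finrank_top, Module.finrank_fin_fun, Fintype.card_fin] at h2
  rw [Module.natCard_eq_pow_finrank (K := ZMod p), Nat.card_zmod]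
  exact Nat.pow_le_pow_right hp.out.pos h2

lemma form_basis (X : Submodule (ZMod p) (Fin N → F)) [Finite X]
    (hX : Submodule.span F (X : Set (Fin N → F)) = ⊤) (hc : Nat.card X = p ^ N) :
    ∃ M : Matrix (Fin N) (Fin N) F, IsUnit M.det ∧ (∀ z : Fin N → ZMod p, M *ᵥ vx F z ∈ X) ∧
      ∀ x ∈ X, ∃ z : Fin N → ZMod p, x = M *ᵥ vx F z := by
  have hf : Module.Finite (ZMod p) X := Module.Finite.of_finite
  have hd : Module.finrank (ZMod p) X = N := by
    rw [Module.natCard_eq_pow_finrank (K := ZMod p), Nat.card_zmod] at hc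
    exact Nat.pow_right_injective hp.out.two_le hc
  let b : Module.Basis (Fin N) (ZMod p) X :=
    (Module.finBasis (ZMod p) X).reindex (finCongr hd)
  have h1 := span_basis X hX b
  let M : Matrix (Fin N) (Fin N) F := Matrix.of fun i j => (b j : Fin N → F) i
  have hM : ∀ w : Fin N → F, M *ᵥ w = ∑ j, w j • (b j : Fin N → F) := by
    intro w
    funext i
    simp [M, mulVec, dotProduct, mul_comm]
  have hMv : ∀ z : Fin N → ZMod p, M *ᵥ vx F z = ((∑ j, z j • b j : X) : Fin N → F) := by
    intro z
    rw [hM, AddSubmonoidClass.coe_finsetSum]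
    refine Finset.sum_congr rfl fun j _ => ?_
    change algebraMap (ZMod p) F (z j) • _ = _
    rw [algebraMap_smul]
    rfl
  refine ⟨M, ?_, ?_, ?_⟩
  · rw [← Matrix.isUnit_iff_isUnit_det, ← Matrix.mulVec_surjective_iff_isUnit]
    intro x
    have hx : x ∈ Submodule.span F (Set.range fun i => (b i : Fin N → F)) := by
      rw [h1]; trivial
    obtain ⟨w, hw⟩ := (Submodule.mem_span_range_iff_exists_fun F).1 hx
    exact ⟨w, by rw [hM, hw]⟩
  · intro z
    rw [hMv]
    exact Subtype.mem _
  · intro x hx
    refine ⟨b.repr ⟨x, hx⟩, ?_⟩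
    rw [hMv, b.sum_repr]

end

end Pool.Agent.R691.Mip
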