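import Mathlib
import Pool.Agent.R691.Mip.Form

set_option autoImplicit false
set_option linter.unusedSectionVars false

/-! # Counting -/

namespace Pool.Agent.R691.Mip

open Matrix

section forms
variable {p : ℕ} [hp : Fact p.Prime] {n m : ℕ} {B : Fin m → Matrix (Fin n) (Fin n) (ZMod p)}
  {F : Type*} [Field F] [Algebra (ZMod p) F]

lemma bil_single (i j : Fin n) (l : Fin m) :
    bil B (Pi.single i 1) (Pi.single j 1) l = B l i j := by
  simp [bil]

lemma BF_skew (hskew : ∀ v w, bil B v w = - bil B w v) (v w : Fin n → F) :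
    bil (BF B F) v w = - bil (BF B F) w v := by
  have h1 : ∀ l i j, B l j i = - B l i j := by
    intro l i j
    have := congrFun (hskew (Pi.single j 1) (Pi.single i 1)) l
    rwa [Pi.neg_apply, bil_single, bil_single] at this
  have h2 : ∀ l, (BF B F l)ᵀ = - BF B F l := by
    intro l
    ext i j
    simp only [transpose_apply, Matrix.neg_apply, BF, ex_apply]
    rw [h1 l i j, map_neg]
  funext l
  change v ⬝ᵥ (BF B F l *ᵥ w) = - (w ⬝ᵥ (BF B F l *ᵥ v))
  have h3 : w ⬝ᵥ ((BF B F l)ᵀ *ᵥ v) = v ⬝ᵥ (BF B F l *ᵥ w) := by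
    rw [mulVec_transpose, dotProduct_comm, ← dotProduct_mulVec]
  rw [h2, neg_mulVec, dotProduct_neg] at h3
  exact h3.symm

lemma BF_nd (hnd : ∀ c : Fin m → ZMod p, (∀ v w, c ⬝ᵥ bil B v w = 0) → c = 0)
    (c : Fin m → F) (hc : ∀ v w, c ⬝ᵥ bil (BF B F) v w = 0) : c = 0 := by
  funext l
  rw [Pi.zero_apply, ← Module.forall_dual_apply_eq_zero_iff (ZMod p)]
  intro τ
  have h1 : (fun l => τ (c l)) = 0 := by
    apply hnd
    intro v w
    have h2 := hc (vx F v) (vx F w)
    rw [bil_vx] at h2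
    have h3 := congrArg τ h2
    rw [map_zero, dotProduct, map_sum] at h3
    rw [← h3, dotProduct]
    refine Finset.sum_congr rfl fun l _ => ?_
    change τ (c l) * bil B v w l = τ (c l * algebraMap (ZMod p) F (bil B v w l))
    rw [mul_comm (c l), ← Algebra.smul_def, map_smul, smul_eq_mul, mul_comm]
  exact congrFun h1 l

end forms

section count
variable {p : ℕ} [hp : Fact p.Prime] {n m : ℕ} {B : Fin m → Matrix (Fin n) (Fin n) (ZMod p)}
  {F : Type*} [Field F] [Algebra (ZMod p) F] {H : Type*} [Group H]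
  (P : H → Fin n → F) (T : H → Fin m → F)
  (hP : ∀ h k, P (h * k) = P h + P k)
  (hT : ∀ h k, T (h * k) = T h + T k + bil (BF B F) (P h) (P k))
include hP

lemma P_one : P 1 = 0 := by
  have := hP 1 1
  rw [mul_one] at this
  exact left_eq_add.1 this

lemma P_inv (h : H) : P h⁻¹ = - P h := by
  have := hP h h⁻¹
  rw [mul_inv_cancel, P_one P hP] at this
  exact (neg_eq_of_add_eq_zero_right this.symm).symm

lemma P_comm (h k : H) : P (h * k * h⁻¹ * k⁻¹) = 0 := by
  rw [hP, hP, hP, P_inv P hP, P_inv P hP]; abel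

/-- the image of `P` -/
def PHs : Submodule (ZMod p) (Fin n → F) :=
  AddSubgroup.toZModSubmodule p
    { carrier := Set.range P
      zero_mem' := ⟨1, P_one P hP⟩
      add_mem' := by
        rintro _ _ ⟨a, rfl⟩ ⟨b, rfl⟩
        exact ⟨a * b, hP a b⟩
      neg_mem' := by
        rintro _ ⟨a, rfl⟩
        exact ⟨a⁻¹, P_inv P hP a⟩ }

lemma mem_PHs (x : Fin n → F) : x ∈ PHs (p := p) P hP ↔ ∃ h, P h = x := Iff.rfl

include hT

lemma T_one : T 1 = 0 := by
  have := hT 1 1
  rw [mul_one, P_one P hP, bil_zero_left, add_zero] at this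
  exact left_eq_add.1 this

lemma T_inv_of (h : H) (h0 : P h = 0) : T h⁻¹ = - T h := by
  have := hT h h⁻¹
  rw [mul_inv_cancel, T_one P T hP hT, h0, bil_zero_left, add_zero] at this
  exact (neg_eq_of_add_eq_zero_right this.symm).symm

lemma T_comm (hskew : ∀ v w, bil (BF B F) v w = - bil (BF B F) w v) (h k : H) :
    T (h * k * h⁻¹ * k⁻¹) = (2 : F) • bil (BF B F) (P h) (P k) := by
  have h1 : (h * k * h⁻¹ * k⁻¹) * (k * h) = h * k := by group
  have h2 := hT (h * k * h⁻¹ * k⁻¹) (k * h)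
  rw [h1, P_comm P hP, bil_zero_left, add_zero, hT h k, hT k h, hskew (P k) (P h)] at h2
  rw [two_smul]
  have h3 : T (h * k * h⁻¹ * k⁻¹) = T h + T k + bil (BF B F) (P h) (P k) -
      (T k + T h + - bil (BF B F) (P h) (P k)) := by
    rw [h2, add_sub_cancel_right]
  rw [h3]
  abel

/-- the image of `T` on the kernel of `P` -/
def UU : Submodule (ZMod p) (Fin m → F) :=
  AddSubgroup.toZModSubmodule p
    { carrier := {t | ∃ h, P h = 0 ∧ T h = t}
      zero_mem' := ⟨1, P_one P hP, T_one P T hP hT⟩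
      add_mem' := by
        rintro _ _ ⟨a, ha, rfl⟩ ⟨b, hb, rfl⟩
        refine ⟨a * b, ?_, ?_⟩
        · rw [hP, ha, hb, add_zero]
        · rw [hT, ha, bil_zero_left, add_zero]
      neg_mem' := by
        rintro _ ⟨a, ha, rfl⟩
        refine ⟨a⁻¹, ?_, T_inv_of P T hP hT a ha⟩
        rw [P_inv P hP, ha, neg_zero] }

lemma mem_UU (x : Fin m → F) : x ∈ UU P T hP hT ↔ ∃ h, P h = 0 ∧ T h = x := Iff.rfl

omit hP hT in
/-- the span of the values of the form -/
def U0 (B : Fin m → Matrix (Fin n) (Fin n) (ZMod p)) (P : H → Fin n → F) :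
    Submodule (ZMod p) (Fin m → F) :=
  Submodule.span (ZMod p) {t | ∃ a b : H, t = bil (BF B F) (P a) (P b)}

lemma U0_le (h2 : (2 : ZMod p) ≠ 0) (hskew : ∀ v w, bil (BF B F) v w = - bil (BF B F) w v) :
    U0 B P ≤ UU P T hP hT := by
  rw [U0, Submodule.span_le]
  rintro _ ⟨a, b, rfl⟩
  have h1 : (2 : F) • bil (BF B F) (P a) (P b) ∈ UU P T hP hT :=
    ⟨_, P_comm P hP a b, T_comm P T hP hT hskew a b⟩
  have h3 := (UU P T hP hT).smul_mem (2 : ZMod p)⁻¹ h1
  have h4 : (2 : ZMod p)⁻¹ • (2 : F) • bil (BF B F) (P a) (P b) = bil (BF B F) (P a) (P b) := by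
    have h5 : (2 : F) • bil (BF B F) (P a) (P b) = (2 : ZMod p) • bil (BF B F) (P a) (P b) := by
      rw [two_smul, two_smul]
    rw [h5, smul_smul, inv_mul_cancel₀ h2, one_smul]
  rw [h4] at h3
  exact h3

omit hP hT in
lemma U0_span (hnd : ∀ c : Fin m → F, (∀ v w, c ⬝ᵥ bil (BF B F) v w = 0) → c = 0)
    (hspan : Submodule.span F (Set.range P) = ⊤) :
    Submodule.span F (U0 B P : Set (Fin m → F)) = ⊤ := by
  classical
  by_contra hcon
  obtain ⟨f, hf0, hf⟩ := Submodule.exists_le_ker_of_lt_top _ (lt_top_iff_ne_top.2 hcon)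
  apply hf0
  have hf1 : ∀ a b : H, f (bil (BF B F) (P a) (P b)) = 0 := by
    intro a b
    apply hf
    apply Submodule.subset_span
    exact Submodule.subset_span ⟨a, b, rfl⟩
  have hf2 : ∀ (v : Fin n → F) (b : H), f (bil (BF B F) v (P b)) = 0 := by
    intro v b
    have hv : v ∈ Submodule.span F (Set.range P) := by rw [hspan]; trivial
    induction hv using Submodule.span_induction with
    | mem x hx => obtain ⟨a, rfl⟩ := hx; exact hf1 a b
    | zero => rw [bil_zero_left, map_zero]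
    | add x y _ _ hx hy => rw [bil_add_left, map_add, hx, hy, add_zero]
    | smul c x _ hx => rw [bil_smul_left, map_smul, hx, smul_zero]
  have hf3 : ∀ (v w : Fin n → F), f (bil (BF B F) v w) = 0 := by
    intro v w
    have hw : w ∈ Submodule.span F (Set.range P) := by rw [hspan]; trivial
    induction hw using Submodule.span_induction with
    | mem x hx => obtain ⟨a, rfl⟩ := hx; exact hf2 v a
    | zero => rw [bil_zero_right, map_zero]
    | add x y _ _ hx hy => rw [bil_add_right, map_add, hx, hy, add_zero]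
    | smul c x _ hx => rw [bil_smul_right, map_smul, hx, smul_zero]
  have hfc : ∀ t, f t = (fun l => f (Pi.single l 1)) ⬝ᵥ t := by
    intro t
    rw [LinearMap.pi_apply_eq_sum_univ f t, dotProduct]
    refine Finset.sum_congr rfl fun l _ => ?_
    have : (fun j => if l = j then (1 : F) else 0) = Pi.single l (1 : F) := by
      funext k
      simp [Pi.single_apply, eq_comm]
    rw [this, smul_eq_mul, mul_comm]
  have h1 := hnd (fun l => f (Pi.single l 1)) (by
    intro v w
    rw [← hfc]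
    exact hf3 v w)
  ext t
  rw [h1] at hfc
  simp [hfc]

theorem counting (h2 : (2 : ZMod p) ≠ 0) (hskew : ∀ v w, bil (BF B F) v w = - bil (BF B F) w v)
    (hnd : ∀ c : Fin m → F, (∀ v w, c ⬝ᵥ bil (BF B F) v w = 0) → c = 0)
    (hspan : Submodule.span F (Set.range P) = ⊤) (hcard : Nat.card H = p ^ n * p ^ m) :
    (∀ h, P h = 0 → T h = 0 → h = 1) ∧
    (∃ M : Matrix (Fin n) (Fin n) F, IsUnit M.det ∧
      (∀ z : Fin n → ZMod p, ∃ h, P h = M *ᵥ vx F z) ∧
      (∀ h, ∃ z : Fin n → ZMod p, P h = M *ᵥ vx F z)) ∧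
    (∃ M : Matrix (Fin m) (Fin m) F, IsUnit M.det ∧
      (∀ z : Fin m → ZMod p, ∃ h, P h = 0 ∧ T h = M *ᵥ vx F z) ∧
      (∀ h, P h = 0 → ∃ z : Fin m → ZMod p, T h = M *ᵥ vx F z)) ∧
    (∀ h, P h = 0 → T h ∈ U0 B P) := by
  have hp0 := hp.out.pos
  have hHpos : 0 < Nat.card H := by rw [hcard]; positivity
  have hfin : Finite H := (Nat.card_pos_iff.1 hHpos).2
  have hfPH : Finite (PHs (p := p) P hP) := by
    have : Function.Surjective (fun h : H => (⟨P h, h, rfl⟩ : PHs (p := p) P hP)) := by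
      rintro ⟨x, h, rfl⟩
      exact ⟨h, rfl⟩
    exact Finite.of_surjective _ this
  let φ : H →* Multiplicative (PHs (p := p) P hP) :=
    { toFun := fun h => Multiplicative.ofAdd ⟨P h, h, rfl⟩
      map_one' := by
        have : (⟨P 1, 1, rfl⟩ : PHs (p := p) P hP) = 0 := Subtype.ext (P_one P hP)
        rw [this]; rfl
      map_mul' := fun a b => by
        have : (⟨P (a * b), a * b, rfl⟩ : PHs (p := p) P hP) =
          ⟨P a, a, rfl⟩ + ⟨P b, b, rfl⟩ := Subtype.ext (hP a b)
        rw [this]; rfl }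
  have hφs : Function.Surjective φ := by
    intro x
    obtain ⟨h, hh⟩ := (Multiplicative.toAdd x).2
    refine ⟨h, ?_⟩
    change Multiplicative.ofAdd (⟨P h, h, rfl⟩ : PHs (p := p) P hP) = x
    have : (⟨P h, h, rfl⟩ : PHs (p := p) P hP) = Multiplicative.toAdd x := Subtype.ext hh
    rw [this]; rfl
  have hφk : ∀ h, h ∈ φ.ker ↔ P h = 0 := by
    intro h
    rw [MonoidHom.mem_ker]
    constructor
    · intro hh
      exact congrArg (fun x => ((Multiplicative.toAdd x : PHs (p := p) P hP) : Fin n → F)) hh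
    · intro hh
      change Multiplicative.ofAdd (⟨P h, h, rfl⟩ : PHs (p := p) P hP) = 1
      have : (⟨P h, h, rfl⟩ : PHs (p := p) P hP) = 0 := Subtype.ext hh
      rw [this]; rfl
  have hcount : Nat.card φ.ker * Nat.card (PHs (p := p) P hP) = p ^ n * p ^ m := by
    rw [← hcard, ← Subgroup.card_mul_index φ.ker, Subgroup.index_ker,
      MonoidHom.range_eq_top.2 hφs]
    congr 1
    rw [Nat.card_congr (Subgroup.topEquiv (G := Multiplicative (PHs (p := p) P hP))).toEquiv]
    exact (Nat.card_congr Multiplicative.toAdd).symm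
  -- the kernel
  let τ : φ.ker → UU P T hP hT := fun h => ⟨T h.1, h.1, (hφk _).1 h.2, rfl⟩
  have hτ : Function.Surjective τ := by
    rintro ⟨x, h, hh, rfl⟩
    exact ⟨⟨h, (hφk h).2 hh⟩, rfl⟩
  have hfU : Finite (UU P T hP hT) := Finite.of_surjective _ hτ
  have hU1 : Nat.card (UU P T hP hT) ≤ Nat.card φ.ker := Nat.card_le_card_of_surjective _ hτ
  have hle := U0_le P T hP hT h2 hskew
  have hinc := Submodule.inclusion_injective hle
  have hfU0 : Finite (U0 B P) := Finite.of_injective _ hinc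
  have hU2 : Nat.card (U0 B P) ≤ Nat.card (UU P T hP hT) := Nat.card_le_card_of_injective _ hinc
  have hU3 : p ^ m ≤ Nat.card (U0 B P) := form_card _ (U0_span P hnd hspan)
  have hspanP : Submodule.span F ((PHs (p := p) P hP : Submodule (ZMod p) (Fin n → F)) :
      Set (Fin n → F)) = ⊤ := hspan
  have hP1 : p ^ n ≤ Nat.card (PHs (p := p) P hP) := form_card _ hspanP
  have hpn : 0 < p ^ n := by positivity
  have hpm : 0 < p ^ m := by positivity
  have hk : Nat.card φ.ker = p ^ m := by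
    apply le_antisymm
    · by_contra hcon
      push Not at hcon
      have : p ^ m * p ^ n < Nat.card φ.ker * Nat.card (PHs (p := p) P hP) :=
        Nat.mul_lt_mul_of_lt_of_le hcon hP1 (by omega)
      rw [hcount, mul_comm] at this
      exact lt_irrefl _ this
    · omega
  have hPc : Nat.card (PHs (p := p) P hP) = p ^ n := by
    rw [hk, mul_comm] at hcount
    exact Nat.eq_of_mul_eq_mul_right hpm hcount
  have hUc : Nat.card (UU P T hP hT) = p ^ m := by omega
  have hU0c : Nat.card (U0 B P) = p ^ m := by omega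
  have hτb : Function.Bijective τ := by
    rw [Nat.bijective_iff_surjective_and_card]
    exact ⟨hτ, by rw [hk, hUc]⟩
  have hUU0 : UU P T hP hT ≤ U0 B P := by
    have hb : Function.Bijective (Submodule.inclusion hle) := by
      rw [Nat.bijective_iff_injective_and_card]
      exact ⟨hinc, by rw [hU0c, hUc]⟩
    intro x hx
    obtain ⟨y, hy⟩ := hb.2 ⟨x, hx⟩
    have := congrArg Subtype.val hy
    rw [← show (y : Fin m → F) = x from this]
    exact y.2
  have hUspan : Submodule.span F ((UU P T hP hT : Submodule (ZMod p) (Fin m → F)) :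
      Set (Fin m → F)) = ⊤ := by
    rw [eq_top_iff, ← U0_span P hnd hspan]
    exact Submodule.span_mono hle
  refine ⟨?_, ?_, ?_, ?_⟩
  · intro h h0 h1
    have h3 : (⟨h, (hφk h).2 h0⟩ : φ.ker) = ⟨1, (hφk 1).2 (P_one P hP)⟩ := by
      apply hτb.1
      apply Subtype.ext
      change T h = T 1
      rw [h1, T_one P T hP hT]
    exact congrArg Subtype.val h3
  · obtain ⟨M, hM, hM1, hM2⟩ := form_basis _ hspanP hPc
    exact ⟨M, hM, fun z => (mem_PHs P hP _).1 (hM1 z), fun h => hM2 _ ⟨h, rfl⟩⟩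
  · obtain ⟨M, hM, hM1, hM2⟩ := form_basis _ hUspan hUc
    exact ⟨M, hM, fun z => (mem_UU P T hP hT _).1 (hM1 z), fun h h0 => hM2 _ ⟨h, h0, rfl⟩⟩
  · intro h h0
    exact hUU0 ⟨h, h0, rfl⟩

end count

end Pool.Agent.R691.Mip
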