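import Mathlib
import Pool.Agent.R691.Mip.Count
import Pool.Agent.R691.Mip.Baer

set_option autoImplicit false
set_option linter.unusedSectionVars false

/-! # The main theorem for groups given by matrices -/

namespace Pool.Agent.R691.Mip

open Matrix MonoidAlgebra

section frv
variable {p : ℕ} [hp : Fact p.Prime] {n m : ℕ} {B : Fin m → Matrix (Fin n) (Fin n) (ZMod p)}
  {F : Type*} [Field F] [CharP F p] [Algebra (ZMod p) F]

/-- coordinatewise `p`-power of vectors -/
def frv (p : ℕ) {F : Type*} [Field F] {k : ℕ} (v : Fin k → F) : Fin k → F := fun i => v i ^ p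

lemma frv_vx {k : ℕ} (v : Fin k → ZMod p) : frv p (vx F v) = vx F v := by
  funext i
  change (algebraMap (ZMod p) F (v i)) ^ p = algebraMap (ZMod p) F (v i)
  rw [← map_pow, ZMod.pow_card]

lemma frv_mulVec {k l : ℕ} (A : Matrix (Fin k) (Fin l) F) (v : Fin l → F) :
    frv p (A *ᵥ v) = fr p A *ᵥ frv p v := by
  funext i
  simp only [frv, mulVec, dotProduct, fr_apply]
  rw [sum_pow_char]
  simp [mul_pow]

lemma frv_bil (v w : Fin n → F) :
    frv p (bil (BF B F) v w) = bil (BF B F) (frv p v) (frv p w) := by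
  funext l
  change (v ⬝ᵥ (BF B F l *ᵥ w)) ^ p = frv p v ⬝ᵥ (BF B F l *ᵥ frv p w)
  have h1 : frv p (BF B F l *ᵥ w) = BF B F l *ᵥ frv p w := by
    rw [frv_mulVec, BF, fr_ex]
  rw [← h1, dotProduct, sum_pow_char, dotProduct]
  simp [frv, mul_pow]

omit [CharP F p] in
lemma span_vx {k : ℕ} :
    Submodule.span F (Set.range (vx F : (Fin k → ZMod p) → (Fin k → F))) = ⊤ := by
  rw [eq_top_iff]
  intro x _
  rw [pi_eq_sum_univ' x]
  apply Submodule.sum_mem
  intro i _
  apply Submodule.smul_mem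
  apply Submodule.subset_span
  refine ⟨fun j => if j = i then 1 else 0, ?_⟩
  funext j
  by_cases h : j = i <;> simp [vx, h]

omit [CharP F p] in
lemma ext_bil (Θ : Matrix (Fin m) (Fin m) F) (A C A' C' : Matrix (Fin n) (Fin n) F)
    (h : ∀ x y : Fin n → ZMod p, Θ *ᵥ bil (BF B F) (A *ᵥ vx F x) (C *ᵥ vx F y) =
      bil (BF B F) (A' *ᵥ vx F x) (C' *ᵥ vx F y)) (v w : Fin n → F) :
    Θ *ᵥ bil (BF B F) (A *ᵥ v) (C *ᵥ w) = bil (BF B F) (A' *ᵥ v) (C' *ᵥ w) := by
  have h1 : ∀ (x : Fin n → ZMod p) (w : Fin n → F),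
      Θ *ᵥ bil (BF B F) (A *ᵥ vx F x) (C *ᵥ w) =
      bil (BF B F) (A' *ᵥ vx F x) (C' *ᵥ w) := by
    intro x w
    have hw : w ∈ Submodule.span F (Set.range (vx F : (Fin n → ZMod p) → (Fin n → F))) := by
      rw [span_vx]; trivial
    induction hw using Submodule.span_induction with
    | mem y hy => obtain ⟨y, rfl⟩ := hy; exact h x y
    | zero => simp
    | add y y' _ _ hy hy' =>
      rw [mulVec_add, bil_add_right, mulVec_add, hy, hy', mulVec_add, bil_add_right]
    | smul c y _ hy =>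
      rw [mulVec_smul, bil_smul_right, mulVec_smul, hy, mulVec_smul, bil_smul_right]
  have hv : v ∈ Submodule.span F (Set.range (vx F : (Fin n → ZMod p) → (Fin n → F))) := by
    rw [span_vx]; trivial
  induction hv using Submodule.span_induction with
  | mem y hy => obtain ⟨y, rfl⟩ := hy; exact h1 y w
  | zero => simp
  | add y y' _ _ hy hy' =>
    rw [mulVec_add, bil_add_left, mulVec_add, hy, hy', mulVec_add, bil_add_left]
  | smul c y _ hy =>
    rw [mulVec_smul, bil_smul_left, mulVec_smul, hy, mulVec_smul, bil_smul_left]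

end frv

section alg
variable {p : ℕ} [hp : Fact p.Prime] {n m : ℕ} (B : Fin m → Matrix (Fin n) (Fin n) (ZMod p))
  (F : Type*) [Field F] [CharP F p] [Algebra (ZMod p) F]

/-- the algebra of right multipliers -/
def SSa : Subalgebra F (Matrix (Fin n) (Fin n) F) where
  carrier := {s | ∃ Θ : Matrix (Fin m) (Fin m) F, ∀ v w,
    bil (BF B F) v (s *ᵥ w) = Θ *ᵥ bil (BF B F) v w}
  mul_mem' := by
    rintro s s' ⟨Θ, h⟩ ⟨Θ', h'⟩
    refine ⟨Θ * Θ', fun v w => ?_⟩
    rw [← mulVec_mulVec, h, h', mulVec_mulVec]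
  add_mem' := by
    rintro s s' ⟨Θ, h⟩ ⟨Θ', h'⟩
    refine ⟨Θ + Θ', fun v w => ?_⟩
    rw [add_mulVec, bil_add_right, h, h', add_mulVec]
  algebraMap_mem' := by
    intro c
    refine ⟨algebraMap F _ c, fun v w => ?_⟩
    rw [Algebra.algebraMap_eq_smul_one, Algebra.algebraMap_eq_smul_one, smul_mulVec, one_mulVec,
      smul_mulVec, one_mulVec, bil_smul_right]

variable {B F}

lemma mem_SSa (s : Matrix (Fin n) (Fin n) F) : s ∈ SSa (p := p) B F ↔
    ∃ Θ : Matrix (Fin m) (Fin m) F, ∀ v w,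
    bil (BF B F) v (s *ᵥ w) = Θ *ᵥ bil (BF B F) v w := Iff.rfl

lemma fr_SSa (s : Matrix (Fin n) (Fin n) F) (hs : s ∈ SSa (p := p) B F) :
    fr p s ∈ SSa (p := p) B F := by
  obtain ⟨Θ, h⟩ := (mem_SSa s).1 hs
  rw [mem_SSa]
  refine ⟨fr p Θ, fun v w => ?_⟩
  have h1 := ext_bil (B := B) (fr p Θ) 1 1 1 (fr p s) (by
    intro x y
    rw [one_mulVec, one_mulVec]
    have h2 := congrArg (frv p) (h (vx F x) (vx F y))
    rw [frv_bil, frv_mulVec, frv_mulVec, frv_bil, frv_vx, frv_vx] at h2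
    exact h2.symm) v w
  rw [one_mulVec, one_mulVec] at h1
  exact h1.symm

end alg

section main
variable {p : ℕ} [hp : Fact p.Prime] {n m : ℕ} {B : Fin m → Matrix (Fin n) (Fin n) (ZMod p)}
  {F : Type*} [Field F] [CharP F p] [Algebra (ZMod p) F] {H : Type*} [Group H]

lemma two_ne (h2 : p ≠ 2) (F : Type*) [Field F] [CharP F p] : (2 : F) ≠ 0 := by
  intro h
  have h3 : ((2 : ℕ) : F) = 0 := by exact_mod_cast h
  rw [CharP.cast_eq_zero_iff F p] at h3
  have := (Nat.prime_dvd_prime_iff_eq hp.out Nat.prime_two).1 h3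
  exact h2 this

/-- The key identity: a Frobenius cocycle in the algebra of multipliers. -/
theorem frob_cocycle (h2 : p ≠ 2)
    (hskew : ∀ v w, bil (BF B F) v w = - bil (BF B F) w v)
    (u : H →* MonoidAlgebra F (Heis B)) (haug : ∀ h, aug F _ (u h) = 1)
    (hinj : ∀ h, cP B F (u h) = 0 → cT B F (u h) = 0 → h = 1)
    (M : Matrix (Fin n) (Fin n) F) (hM : IsUnit M.det)
    (hM1 : ∀ z : Fin n → ZMod p, ∃ h, cP B F (u h) = M *ᵥ vx F z)
    (MU : Matrix (Fin m) (Fin m) F) (hMU : IsUnit MU.det)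
    (hMU1 : ∀ z : Fin m → ZMod p, ∃ h, cP B F (u h) = 0 ∧ cT B F (u h) = MU *ᵥ vx F z)
    (hMU2 : ∀ h, cP B F (u h) = 0 → ∃ z : Fin m → ZMod p, cT B F (u h) = MU *ᵥ vx F z) :
    ∃ s0 ∈ SSa (p := p) B F, fr p M = s0 * M := by
  classical
  set P : H → Fin n → F := fun h => cP B F (u h) with hPdef
  set T : H → Fin m → F := fun h => cT B F (u h) with hTdef
  have hP : ∀ h k, P (h * k) = P h + P k := by
    intro h k
    simp only [hPdef]
    rw [map_mul, cP_mul, haug, haug, one_smul, one_smul]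
  have hT : ∀ h k, T (h * k) = T h + T k + bil (BF B F) (P h) (P k) := by
    intro h k
    simp only [hPdef, hTdef]
    rw [map_mul, cT_mul, haug, haug, one_smul, one_smul]
  have hself : ∀ v, bil (BF B F) v v = 0 := by
    intro v
    have h1 := hskew v v
    have h3 : (2 : F) • bil (BF B F) v v = 0 := by
      rw [two_smul]
      nth_rewrite 1 [h1]
      exact neg_add_cancel _
    exact (smul_eq_zero.1 h3).resolve_left (two_ne h2 F)
  have hinj2 : ∀ h k, P h = P k → T h = T k → h = k := by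
    intro h k h1 h3
    have h4 : P (h * k⁻¹) = 0 := by rw [hP, P_inv P hP, h1, add_neg_cancel]
    have h5 : T (h * k⁻¹) = 0 := by
      have h6 := hT (h * k⁻¹) k
      rw [inv_mul_cancel_right, h4, bil_zero_left, add_zero, h3] at h6
      exact right_eq_add.1 h6
    exact mul_inv_eq_one.1 (hinj _ h4 h5)
  have hpow : ∀ h (k : ℕ), P (h ^ k) = (k : F) • P h ∧ T (h ^ k) = (k : F) • T h := by
    intro h k
    induction k with
    | zero => simp [P_one P hP, T_one P T hP hT]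
    | succ k ih =>
      rw [pow_succ, hP, hT, ih.1, ih.2, bil_smul_left, hself, smul_zero, add_zero]
      push_cast
      constructor <;> rw [add_smul, one_smul]
  have hexp : ∀ h : H, h ^ p = 1 := by
    intro h
    apply hinj2
    · rw [(hpow h p).1, P_one P hP]; simp
    · rw [(hpow h p).2, T_one P T hP hT]; simp
  have hcen : ∀ c k, P c = 0 → c * k = k * c := by
    intro c k hc
    apply hinj2
    · rw [hP, hP, add_comm]
    · rw [hT, hT, hc, bil_zero_left, bil_zero_right, add_comm (T c)]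
  -- the function Γ
  set G : H → Fin m → F := fun h => GG B (u h) with hGdef
  have hG : ∀ c d, P c = 0 → P d = 0 → G (c * d) = G c + G d := by
    intro c d hc hd
    simp only [hGdef]
    rw [map_mul]
    apply GG_mul h2 hskew (haug c) (haug d)
    · rw [← map_mul, hcen c d hc, map_mul]
    · rw [← map_pow, hexp, map_one]
    · rw [← map_pow, hexp, map_one]
  have hG1 : G 1 = 0 := by
    have := hG 1 1 (P_one P hP) (P_one P hP)
    rw [mul_one] at this
    exact left_eq_add.1 this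
  have hGinv : ∀ c, P c = 0 → G c⁻¹ = - G c := by
    intro c hc
    have := hG c c⁻¹ hc (by rw [P_inv P hP, hc, neg_zero])
    rw [mul_inv_cancel, hG1] at this
    exact (neg_eq_of_add_eq_zero_right this.symm).symm
  choose hh hh1 hh2 using hMU1
  set Θ : Matrix (Fin m) (Fin m) F :=
    (Matrix.of fun l j => G (hh (Pi.single j 1)) l) * MU⁻¹ with hΘ
  have hΘj : ∀ j, Θ *ᵥ T (hh (Pi.single j 1)) = G (hh (Pi.single j 1)) := by
    intro j
    have h3 : T (hh (Pi.single j 1)) = MU *ᵥ vx F (Pi.single j 1) := hh2 _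
    rw [h3, hΘ, mulVec_mulVec, Matrix.mul_assoc, Matrix.nonsing_inv_mul _ hMU, Matrix.mul_one]
    have h4 : vx F (Pi.single j 1 : Fin m → ZMod p) = Pi.single j (1 : F) := by
      funext i
      by_cases hi : i = j
      · subst hi; simp [vx]
      · simp [vx, hi]
    rw [h4, mulVec_single_one]
    rfl
  have hΘT : ∀ h, P h = 0 → G h = Θ *ᵥ T h := by
    let Z : Submodule (ZMod p) (Fin m → ZMod p) := AddSubgroup.toZModSubmodule p
      { carrier := {z | ∃ h, P h = 0 ∧ G h = Θ *ᵥ T h ∧ T h = MU *ᵥ vx F z}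
        zero_mem' := ⟨1, P_one P hP, by rw [hG1, T_one P T hP hT, mulVec_zero],
          by rw [T_one P T hP hT, vx_zero, mulVec_zero]⟩
        add_mem' := by
          rintro x y ⟨a, ha1, ha2, ha3⟩ ⟨b, hb1, hb2, hb3⟩
          refine ⟨a * b, ?_, ?_, ?_⟩
          · rw [hP, ha1, hb1, add_zero]
          · rw [hG a b ha1 hb1, hT, ha1, bil_zero_left, add_zero, mulVec_add, ha2, hb2]
          · rw [hT, ha1, bil_zero_left, add_zero, ha3, hb3, vx_add, mulVec_add]
        neg_mem' := by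
          rintro x ⟨a, ha1, ha2, ha3⟩
          refine ⟨a⁻¹, ?_, ?_, ?_⟩
          · rw [P_inv P hP, ha1, neg_zero]
          · rw [hGinv a ha1, T_inv_of P T hP hT a ha1, mulVec_neg, ha2]
          · rw [T_inv_of P T hP hT a ha1, ha3, vx_neg, mulVec_neg] }
    have hZ : ∀ z, z ∈ Z := by
      intro z
      rw [pi_eq_sum_univ' z]
      apply Submodule.sum_mem
      intro j _
      apply Submodule.smul_mem
      exact ⟨hh (Pi.single j 1), hh1 _, (hΘj j).symm, hh2 _⟩
    intro h h0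
    obtain ⟨z, hz⟩ := hMU2 h h0
    obtain ⟨a, ha1, ha2, ha3⟩ := hZ z
    have : h = a := hinj2 h a (by rw [ha1]; exact h0) (by rw [ha3]; exact hz)
    rw [this]
    exact ha2
  have hcomm : ∀ h k, Θ *ᵥ bil (BF B F) (P h) (P k) = bil (BF B F) (P h) (frv p (P k)) := by
    intro h k
    have hc0 : P (h * k * h⁻¹ * k⁻¹) = 0 := P_comm P hP h k
    have h3 := T_comm P T hP hT hskew h k
    have h4 : G (h * k * h⁻¹ * k⁻¹) = (2 : F) • bil (BF B F) (P h) (frv p (P k)) := by
      have h5 : h * k = (h * k * h⁻¹ * k⁻¹) * k * h := by group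
      apply GG_comm h2 hskew (haug h) (haug k) (haug (h * k * h⁻¹ * k⁻¹))
      · rw [← map_mul, ← map_mul, ← map_mul, ← h5]
      · rw [← map_mul, ← hcen _ k hc0, map_mul]
      · rw [← map_pow, hexp, map_one]
      · rw [← map_pow, hexp, map_one]
    have h6 := hΘT _ hc0
    rw [h4, h3, mulVec_smul] at h6
    exact (smul_right_injective _ (two_ne h2 F) h6).symm
  have hbil : ∀ v w, Θ *ᵥ bil (BF B F) (M *ᵥ v) (M *ᵥ w) =
      bil (BF B F) (M *ᵥ v) (fr p M *ᵥ w) := by
    apply ext_bil (B := B)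
    intro x y
    obtain ⟨h, hh3⟩ := hM1 x
    obtain ⟨k, hk⟩ := hM1 y
    have h7 := hcomm h k
    simp only [hPdef] at h7
    rw [hh3, hk, frv_mulVec, frv_vx] at h7
    exact h7
  refine ⟨fr p M * M⁻¹, ?_, ?_⟩
  · rw [mem_SSa]
    refine ⟨Θ, fun v w => ?_⟩
    have h8 := hbil (M⁻¹ *ᵥ v) (M⁻¹ *ᵥ w)
    rw [mulVec_mulVec, mulVec_mulVec, Matrix.mul_nonsing_inv _ hM, one_mulVec, one_mulVec,
      mulVec_mulVec] at h8
    exact h8.symm
  · rw [Matrix.mul_assoc, Matrix.nonsing_inv_mul _ hM, Matrix.mul_one]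

theorem main_heis (h2 : p ≠ 2) (hskew : ∀ v w, bil B v w = - bil B w v)
    (hnd : ∀ c : Fin m → ZMod p, (∀ v w, c ⬝ᵥ bil B v w = 0) → c = 0)
    (u : H →* MonoidAlgebra F (Heis B)) (haug : ∀ h, aug F _ (u h) = 1)
    (hspan : Submodule.span F (Set.range u) = ⊤) (hcard : Nat.card H = Nat.card (Heis B)) :
    Nonempty (H ≃* Heis B) := by
  classical
  have hskewF := BF_skew (F := F) hskew
  have hndF := BF_nd (F := F) hnd
  set P : H → Fin n → F := fun h => cP B F (u h) with hPdef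
  set T : H → Fin m → F := fun h => cT B F (u h) with hTdef
  have hP : ∀ h k, P (h * k) = P h + P k := by
    intro h k
    simp only [hPdef]
    rw [map_mul, cP_mul, haug, haug, one_smul, one_smul]
  have hT : ∀ h k, T (h * k) = T h + T k + bil (BF B F) (P h) (P k) := by
    intro h k
    simp only [hPdef, hTdef]
    rw [map_mul, cT_mul, haug, haug, one_smul, one_smul]
  have hspanP : Submodule.span F (Set.range P) = ⊤ := by
    have h1 : Set.range P = cP B F '' Set.range u := by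
      rw [← Set.range_comp]; rfl
    rw [h1, ← Submodule.map_span, hspan, Submodule.map_top, eq_top_iff, ← span_vx (p := p),
      Submodule.span_le]
    rintro _ ⟨z, rfl⟩
    exact ⟨single (⟨z, 0⟩ : Heis B) 1, by rw [cP_single, one_smul]⟩
  have hc : Nat.card H = p ^ n * p ^ m := by
    rw [hcard, Nat.card_congr Heis.equivProd, Nat.card_prod, Nat.card_fun, Nat.card_fun,
      Nat.card_zmod, Nat.card_fin, Nat.card_fin]
  obtain ⟨hinj, ⟨M, hM, hM1, hM2⟩, ⟨MU, hMU, hMU1, hMU2⟩, hU0⟩ :=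
    counting P T hP hT (two_ne h2 (ZMod p)) hskewF hndF hspanP hc
  obtain ⟨s0, hs0, hsM⟩ := frob_cocycle h2 hskewF u haug hinj M hM hM1 MU hMU hMU1 hMU2
  obtain ⟨A, hA, α, hMA⟩ := lang (SSa (p := p) B F) fr_SSa M hM s0 hs0 hsM
  obtain ⟨Θ, hΘ⟩ := (mem_SSa A).1 hA
  have hAdet : IsUnit A.det := by
    rw [hMA, det_mul] at hM
    exact isUnit_of_mul_isUnit_left hM
  have hΘdet : IsUnit Θ.det := by
    rw [isUnit_iff_ne_zero]
    intro h0
    obtain ⟨c, hc0, hc1⟩ := Matrix.exists_vecMul_eq_zero_iff.2 h0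
    apply hc0
    apply hndF
    intro v w
    have h3 := hΘ v (A⁻¹ *ᵥ w)
    rw [mulVec_mulVec, Matrix.mul_nonsing_inv _ hAdet, one_mulVec] at h3
    rw [h3, dotProduct_mulVec, hc1, zero_dotProduct]
  -- coordinates
  have hx : ∀ h, ∃ x : Fin n → ZMod p, P h = A *ᵥ vx F x := by
    intro h
    obtain ⟨z, hz⟩ := hM2 h
    refine ⟨α *ᵥ z, ?_⟩
    rw [hz, hMA, ← mulVec_mulVec]
    congr 1
    funext i
    simp [mulVec, dotProduct, vx]
  choose x hx using hx
  have hAinj : ∀ v w : Fin n → F, A *ᵥ v = A *ᵥ w → v = w := by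
    intro v w h
    have h3 := congrArg (fun t => A⁻¹ *ᵥ t) h
    simpa [mulVec_mulVec, Matrix.nonsing_inv_mul _ hAdet] using h3
  have hxadd : ∀ h k, x (h * k) = x h + x k := by
    intro h k
    apply vx_injective (F := F)
    apply hAinj
    rw [← hx, hP, hx h, hx k, vx_add, mulVec_add]
  have hbil : ∀ h k, bil (BF B F) (P h) (P k) = (Θ * Θ) *ᵥ vx F (bil B (x h) (x k)) := by
    intro h k
    rw [hx h, hx k, hΘ, hskewF, hΘ, hskewF (vx F (x k))]
    simp only [mulVec_neg, neg_neg, mulVec_mulVec]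
    rw [bil_vx]
  set Ω : Matrix (Fin m) (Fin m) F := Θ⁻¹ * Θ⁻¹ with hΩ
  have hΩ1 : Ω * (Θ * Θ) = 1 := by
    rw [hΩ, Matrix.mul_assoc, ← Matrix.mul_assoc Θ⁻¹ Θ Θ, Matrix.nonsing_inv_mul _ hΘdet,
      Matrix.one_mul, Matrix.nonsing_inv_mul _ hΘdet]
  have hΩ2 : (Θ * Θ) * Ω = 1 := by
    rw [hΩ, Matrix.mul_assoc, ← Matrix.mul_assoc Θ Θ⁻¹ Θ⁻¹, Matrix.mul_nonsing_inv _ hΘdet,
      Matrix.one_mul, Matrix.mul_nonsing_inv _ hΘdet]
  have hΩbil : ∀ h k, Ω *ᵥ bil (BF B F) (P h) (P k) = vx F (bil B (x h) (x k)) := by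
    intro h k
    rw [hbil, mulVec_mulVec, hΩ1, one_mulVec]
  have hΩU0 : ∀ t ∈ U0 B P, ∃ s : Fin m → ZMod p, Ω *ᵥ t = vx F s := by
    intro t ht
    rw [U0] at ht
    induction ht using Submodule.span_induction with
    | mem t ht =>
      obtain ⟨a, b, rfl⟩ := ht
      exact ⟨_, hΩbil a b⟩
    | zero => exact ⟨0, by rw [mulVec_zero, vx_zero]⟩
    | add t t' _ _ h h' =>
      obtain ⟨s, hs⟩ := h
      obtain ⟨s', hs'⟩ := h'
      exact ⟨s + s', by rw [mulVec_add, hs, hs', vx_add]⟩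
    | smul c t _ h =>
      obtain ⟨s, hs⟩ := h
      exact ⟨c • s, by rw [mulVec_smul, hs, vx_smul]⟩
  let ι : (Fin m → ZMod p) →ₗ[ZMod p] (Fin m → F) :=
    { toFun := vx F
      map_add' := vx_add F
      map_smul' := vx_smul F }
  obtain ⟨r, hr⟩ := ι.exists_leftInverse_of_injective (LinearMap.ker_eq_bot.2 vx_injective)
  have hr' : ∀ s, r (vx F s) = s := fun s => LinearMap.congr_fun hr s
  let φ : H →* Heis B := MonoidHom.mk' (fun h => ⟨x h, r (Ω *ᵥ T h)⟩) (by
    intro h k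
    apply Heis.ext
    · exact hxadd h k
    · change r (Ω *ᵥ T (h * k)) = r (Ω *ᵥ T h) + r (Ω *ᵥ T k) + bil B (x h) (x k)
      rw [hT, mulVec_add, mulVec_add, hΩbil, map_add, map_add, hr'])
  have hφ : Function.Injective φ := by
    rw [injective_iff_map_eq_one]
    intro h h0
    have h1 : x h = 0 := congrArg Heis.v h0
    have h3 : r (Ω *ᵥ T h) = 0 := congrArg Heis.t h0
    have h4 : P h = 0 := by rw [hx, h1, vx_zero, mulVec_zero]
    obtain ⟨s, hs⟩ := hΩU0 _ (hU0 h h4)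
    rw [hs, hr'] at h3
    rw [h3, vx_zero] at hs
    apply hinj h h4
    have h5 : (Θ * Θ) *ᵥ (Ω *ᵥ T h) = T h := by rw [mulVec_mulVec, hΩ2, one_mulVec]
    rw [← h5, hs, mulVec_zero]
  have hfin : Finite H := by
    have : 0 < Nat.card H := by rw [hcard]; exact Nat.card_pos
    exact (Nat.card_pos_iff.1 this).2
  exact ⟨MulEquiv.ofBijective φ ((Nat.bijective_iff_injective_and_card φ).2 ⟨hφ, hcard⟩)⟩

end main

end Pool.Agent.R691.Mip
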