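import Mathlib
import Pool.Agent.R691.Mip.Main

set_option autoImplicit false
set_option linter.unusedSectionVars false

/-! # The isomorphism theorem for groups of class two and odd prime exponent -/

namespace Pool.Agent.R691.Mip

open MonoidAlgebra
open scoped commutatorElement

/-- the group elements form a basis -/
noncomputable def gbasis (F : Type*) [Field F] (G : Type*) : Module.Basis G F (MonoidAlgebra F G) :=
  Module.Basis.ofRepr (coeffLinearEquiv F)

lemma gbasis_apply (F : Type*) [Field F] (G : Type*) (g : G) :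
    gbasis F G g = single g 1 := by
  rw [Module.Basis.apply_eq_iff]
  simp [gbasis, coeffLinearEquiv]

theorem iso_of_heis {p : ℕ} [hp : Fact p.Prime] (h2 : p ≠ 2) {n m : ℕ}
    {B : Fin m → Matrix (Fin n) (Fin n) (ZMod p)}
    (hskew : ∀ v w, bil B v w = - bil B w v)
    (hnd : ∀ c : Fin m → ZMod p, (∀ v w, c ⬝ᵥ bil B v w = 0) → c = 0)
    {F : Type*} [Field F] [CharP F p] {H : Type*} [Group H]
    (e : MonoidAlgebra F H ≃ₐ[F] MonoidAlgebra F (Heis B)) : Nonempty (H ≃* Heis B) := by
  classical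
  let _ : Algebra (ZMod p) F := ZMod.algebra F p
  let b1 : Module.Basis H F (MonoidAlgebra F (Heis B)) := (gbasis F H).map e.toLinearEquiv
  let θ : H ≃ Heis B := b1.indexEquiv (gbasis F (Heis B))
  have hcard : Nat.card H = Nat.card (Heis B) := Nat.card_congr θ
  let u : H →* MonoidAlgebra F (Heis B) := (e : MonoidAlgebra F H →* _).comp (of F H)
  have hu : ∀ h, u h = e (single h 1) := fun _ => rfl
  have hspan : Submodule.span F (Set.range u) = ⊤ := by
    rw [← b1.span_eq]
    have : (u : H → MonoidAlgebra F (Heis B)) = b1 := by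
      funext h
      rw [Module.Basis.map_apply, gbasis_apply]; rfl
    rw [this]
  have hc : Nat.card H = p ^ (n + m) := by
    rw [hcard, Nat.card_congr Heis.equivProd, Nat.card_prod, Nat.card_fun, Nat.card_fun,
      Nat.card_zmod, Nat.card_fin, Nat.card_fin, pow_add]
  have haug : ∀ h, aug F _ (u h) = 1 := by
    intro h
    have h1 : h ^ (p ^ (n + m)) = 1 := by rw [← hc]; exact pow_card_eq_one'
    have h3 : (aug F _ (u h)) ^ (p ^ (n + m)) = 1 := by
      rw [← aug_pow, ← map_pow, h1, map_one, aug_one]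
    haveI : ExpChar F p := ExpChar.prime hp.out
    have h4 := ExpChar.pow_prime_pow_mul_eq_one_iff p (n + m) 1 (aug F _ (u h))
    rw [mul_one, pow_one] at h4
    exact h4.1 h3
  exact main_heis h2 hskew hnd u haug hspan hcard

theorem iso_of_class_two {p : ℕ} [hp : Fact p.Prime] (h2 : p ≠ 2) {G : Type*} [Group G] [Finite G]
    (hcen : ∀ x y z : G, ⁅x, y⁆ * z = z * ⁅x, y⁆) (hexp : ∀ x : G, x ^ p = 1)
    {F : Type*} [Field F] [CharP F p] {H : Type*} [Group H]
    (e : MonoidAlgebra F G ≃ₐ[F] MonoidAlgebra F H) : Nonempty (G ≃* H) := by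
  obtain ⟨j, hj⟩ := hp.out.odd_of_ne_two h2
  obtain ⟨n, m, B, hskew, hnd, ⟨θ⟩⟩ := baer (p := p) ⟨j, hj.symm, hcen, hexp⟩
  have e1 : MonoidAlgebra F H ≃ₐ[F] MonoidAlgebra F (Heis B) :=
    e.symm.trans (MonoidAlgebra.domCongr F F θ)
  obtain ⟨f⟩ := iso_of_heis h2 hskew hnd e1
  exact ⟨θ.trans f.symm⟩

end Pool.Agent.R691.Mip
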